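import Mathlib

set_option autoImplicit false

namespace Pool.Agent.Lib.MP_7836d5_lc.Neg

/-- circuits on subsets of `Ω`: input bits, constants, monotone real gates, negations in `Ng` -/
def Circ {Ω : Type} [DecidableEq Ω] {s : ℕ} (val : Fin s → Finset Ω → ℝ) (Ng : Finset (Fin s)) :
    Prop :=
  ∀ g, (∃ e : Ω, ∀ x, val g x = if e ∈ x then 1 else 0) ∨ (∃ c, ∀ x, val g x = c) ∨
    (∃ j < g, ∃ l < g, ∃ φ : ℝ × ℝ → ℝ, Monotone φ ∧ ∀ x, val g x = φ (val j x, val l x)) ∨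
    (g ∈ Ng ∧ ∃ j < g, ∀ x, val g x = if 0 < val j x then 0 else 1)

end Pool.Agent.Lib.MP_7836d5_lc.Neg
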