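import Pool.Agent.Lib.MP_7836d5_lc.Neg.Defs
import Pool.Agent.Lib.MP_7836d5_lc.Neg.Circ

set_option autoImplicit false

/-! Boolean circuits after a restriction of the inputs. -/

namespace Pool.Agent.Lib.MP_7836d5_lc.Neg

open Finset

theorem circ_of_neg {X Ω : Type} [DecidableEq Ω] {f : (X → Bool) → Prop} {s t : ℕ}
    (h : NegCirc f s t) (T : (Ω → Bool) → X → Bool)
    (hT : ∀ e, (∃ b, ∀ x, T x e = b) ∨ ∃ a, ∀ x, T x e = x a) :
    ∃ (val : Fin s → Finset Ω → ℝ) (Ng : Finset (Fin s)) (out : Fin s), Circ val Ng ∧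
      Ng.card ≤ t ∧ ∀ x, 0 < val out x ↔ f (T fun a => decide (a ∈ x)) := by
  obtain ⟨v, N, o, ht, hf, hv⟩ := h
  refine ⟨fun g x => if v g (T fun a => decide (a ∈ x)) = true then 1 else 0, N, o, fun g => ?_,
    ht, fun x => ?_⟩
  · rcases hv g with ⟨e, h2⟩ | ⟨b, h2⟩ | ⟨j, hj, l, hl, h2⟩ | ⟨j, hj, l, hl, h2⟩ | ⟨hg, j, hj, h2⟩
    · rcases hT e with ⟨b, hb⟩ | ⟨a, ha⟩
      · exact .inr (.inl ⟨if b = true then 1 else 0, fun x => by simp only [h2, hb]⟩)
      · exact .inl ⟨a, fun x => by simp only [h2, ha, decide_eq_true_eq]⟩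
    · exact .inr (.inl ⟨if b = true then 1 else 0, fun x => by simp only [h2]⟩)
    · refine .inr (.inr (.inl ⟨j, hj, l, hl, fun y => min y.1 y.2,
        monotone_fst.min monotone_snd, fun x => ?_⟩))
      by_cases e1 : v j (T fun a => decide (a ∈ x)) = true <;>
        by_cases e2 : v l (T fun a => decide (a ∈ x)) = true <;> simp [h2, e1, e2]
    · refine .inr (.inr (.inl ⟨j, hj, l, hl, fun y => max y.1 y.2,
        monotone_fst.max monotone_snd, fun x => ?_⟩))
      by_cases e1 : v j (T fun a => decide (a ∈ x)) = true <;>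
        by_cases e2 : v l (T fun a => decide (a ∈ x)) = true <;> simp [h2, e1, e2]
    · refine .inr (.inr (.inr ⟨hg, j, hj, fun x => ?_⟩))
      by_cases e1 : v j (T fun a => decide (a ∈ x)) = true <;> simp [h2, e1]
  · rw [hf]
    by_cases e1 : v o (T fun a => decide (a ∈ x)) = true <;> simp [e1]

end Pool.Agent.Lib.MP_7836d5_lc.Neg
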