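import Pool.Agent.Lib.MP_7836d5_lc.Neg.Second

set_option autoImplicit false

/-! Closed functions and the Kraft inequality over all levels. -/

namespace Pool.Agent.Lib.MP_7836d5_lc.Neg

open Finset

variable {Ω : Type} [DecidableEq Ω]

/-- the value is attained on a subset of size at most `d` -/
def Det (d : ℕ) (h : Finset Ω → ℝ) : Prop := ∀ x, ∃ U ⊆ x, U.card ≤ d ∧ h x ≤ h U

/-- a level reached from `T` with probability at least `1 - ε` is reached at `T` -/
def Closed (Q : Module.End ℝ (Finset Ω → ℝ)) (d : ℕ) (ε : ℝ) (g : Finset Ω → ℝ) : Prop :=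
  ∀ T U : Finset Ω, T.card ≤ d → Q (fun y => ind (g y < g U)) T ≤ ε → g U ≤ g T

variable [Fintype Ω]

lemma card_small (d : ℕ) :
    (univ.filter fun T : Finset Ω => T.card ≤ d).card ≤ (Fintype.card Ω + 1) ^ d := by
  have h : (univ.filter fun T : Finset Ω => T.card ≤ d) ⊆
      univ.image fun f : Fin d → Option Ω => univ.filter fun u => ∃ i, f i = some u := by
    intro T hT
    have hT' := (mem_filter.1 hT).2
    refine mem_image.2 ⟨fun i => if h : i.1 < T.card then some (T.equivFin.symm ⟨i.1, h⟩).1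
      else none, mem_univ _, ?_⟩
    ext u
    simp only [mem_filter, mem_univ, true_and]
    constructor
    · rintro ⟨i, hi⟩
      split_ifs at hi with h
      rw [← Option.some.inj hi]
      exact (T.equivFin.symm _).2
    · intro hu
      refine ⟨⟨(T.equivFin ⟨u, hu⟩).1, (T.equivFin ⟨u, hu⟩).2.trans_le hT'⟩, ?_⟩
      simp
  refine (card_le_card h).trans (card_image_le.trans ?_)
  simp

lemma closure {Q : Module.End ℝ (Finset Ω → ℝ)} (hQ : Mk Q) (d : ℕ) {ε : ℝ} (hε : 0 ≤ ε)
    (V : Finset ℝ) (n : ℕ) : ∀ g : Finset Ω → ℝ, Monotone g → Det d g → (∀ x, g x ∈ V) →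
      (((univ.filter fun T : Finset Ω => T.card ≤ d) ×ˢ V).filter fun a => g a.1 < a.2).card ≤ n →
      ∃ g' : Finset Ω → ℝ, Monotone g' ∧ Det d g' ∧ (∀ x, g x ≤ g' x) ∧ Closed Q d ε g' ∧
        Q (fun y => ind (g y < g' y)) ∅ ≤ n * ε := by
  have base : ∀ (n : ℕ) (g : Finset Ω → ℝ), Monotone g → Det d g → Closed Q d ε g →
      ∃ g' : Finset Ω → ℝ, Monotone g' ∧ Det d g' ∧ (∀ x, g x ≤ g' x) ∧ Closed Q d ε g' ∧
        Q (fun y => ind (g y < g' y)) ∅ ≤ n * ε := by
    intro n g h1 h2 h3
    refine ⟨g, h1, h2, fun _ => le_rfl, h3, ?_⟩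
    simp only [ind_neg (lt_irrefl _), hQ.const]
    positivity
  induction n with
  | zero =>
    intro g h1 h2 h3 h4
    refine base 0 g h1 h2 fun T U hT _ => ?_
    by_contra hlt
    have : (T, g U) ∈ ((univ.filter fun T : Finset Ω => T.card ≤ d) ×ˢ V).filter
        fun a => g a.1 < a.2 := by
      simp [hT, h3, not_le.1 hlt]
    have := card_pos.2 ⟨_, this⟩
    omega
  | succ n ih =>
    intro g h1 h2 h3 h4
    by_cases hc : Closed Q d ε g
    · exact base _ g h1 h2 hc
    simp only [Closed, not_forall, not_le] at hc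
    obtain ⟨T, U, hT, hε', hlt⟩ := hc
    set g1 : Finset Ω → ℝ := fun x => if T ⊆ x then max (g x) (g U) else g x with hg1
    have hle : ∀ x, g x ≤ g1 x := by
      intro x
      simp only [hg1]
      split_ifs
      · exact le_max_left _ _
      · exact le_rfl
    have hm : Monotone g1 := by
      intro x y hxy
      by_cases hx : T ⊆ x
      · simp only [hg1, if_pos hx, if_pos (hx.trans hxy)]
        exact max_le_max (h1 hxy) le_rfl
      · simp only [hg1, if_neg hx]
        exact (h1 hxy).trans (hle y)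
    have hd : Det d g1 := by
      intro x
      obtain ⟨W, hW, hWd, hWg⟩ := h2 x
      by_cases hx : T ⊆ x
      · rcases le_total (g x) (g U) with h | h
        · refine ⟨T, hx, hT, ?_⟩
          simp only [hg1, if_pos hx, if_pos (Subset.refl T), max_eq_right h]
          exact le_max_right _ _
        · refine ⟨W, hW, hWd, ?_⟩
          simp only [hg1, if_pos hx, max_eq_left h]
          exact hWg.trans (hle W)
      · refine ⟨W, hW, hWd, ?_⟩
        simp only [hg1, if_neg hx]
        exact hWg.trans (hle W)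
    have hV : ∀ x, g1 x ∈ V := by
      intro x
      simp only [hg1]
      split_ifs
      · rcases max_choice (g x) (g U) with h | h <;> rw [h] <;> exact h3 _
      · exact h3 _
    have hcard : (((univ.filter fun T : Finset Ω => T.card ≤ d) ×ˢ V).filter
        fun a => g1 a.1 < a.2).card ≤ n := by
      refine Nat.lt_succ_iff.1 (lt_of_lt_of_le (card_lt_card ⟨fun a ha => ?_, fun hs => ?_⟩) h4)
      · exact mem_filter.2 ⟨(mem_filter.1 ha).1, (hle _).trans_lt (mem_filter.1 ha).2⟩
      · have h5 : (T, g U) ∈ ((univ.filter fun T : Finset Ω => T.card ≤ d) ×ˢ V).filter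
            fun a => g a.1 < a.2 := by
          simp [hT, h3, hlt]
        have h6 := (mem_filter.1 (hs h5)).2
        simp only [hg1, if_pos (Subset.refl T)] at h6
        exact absurd h6 (not_lt.2 (le_max_right _ _))
    obtain ⟨g', a1, a2, a3, a4, a5⟩ := ih g1 hm hd hV hcard
    refine ⟨g', a1, a2, fun x => (hle x).trans (a3 x), a4, ?_⟩
    rw [hQ.shift0] at hε'
    calc Q (fun y => ind (g y < g' y)) ∅
        ≤ Q (fun y => ind (g (T ∪ y) < g U) + ind (g1 y < g' y)) ∅ := by
          refine hQ.mono fun A => le_trans (ind_mono fun h => ?_) (ind_or_le _ _)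
          simp only [empty_union] at h ⊢
          by_cases h' : g1 A < g' A
          · exact Or.inr h'
          · have h7 : g A < g1 A := h.trans_le (not_lt.1 h')
            by_cases hx : T ⊆ A
            · simp only [hg1, if_pos hx] at h7
              rw [union_eq_right.2 hx]
              exact Or.inl ((lt_max_iff.1 h7).resolve_left (lt_irrefl _))
            · simp only [hg1, if_neg hx] at h7
              exact absurd h7 (lt_irrefl _)
      _ ≤ ε + n * ε := by rw [Mk.add]; exact add_le_add hε' a5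
      _ = _ := by push_cast; ring

open Classical in
/-- small sets whose value is larger than that of all proper subsets -/
noncomputable def strict (d : ℕ) (g : Finset Ω → ℝ) : Finset (Finset Ω) :=
  univ.filter fun U => U.card ≤ d ∧ ∀ V ⊂ U, g V < g U

lemma mem_strict {d : ℕ} {g : Finset Ω → ℝ} {U : Finset Ω} :
    U ∈ strict d g ↔ U.card ≤ d ∧ ∀ V ⊂ U, g V < g U := by
  simp [strict]

lemma exists_strict {d : ℕ} (g : Finset Ω → ℝ) (U : Finset Ω) (hU : U.card ≤ d) :
    ∃ W ⊆ U, W ∈ strict d g ∧ g U ≤ g W := by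
  induction U using Finset.strongInduction with
  | H U ih =>
    by_cases h : ∀ V ⊂ U, g V < g U
    · exact ⟨U, Subset.rfl, mem_strict.2 ⟨hU, h⟩, le_rfl⟩
    · simp only [not_forall, not_lt] at h
      obtain ⟨V, hV, hg⟩ := h
      obtain ⟨W, h1, h2, h3⟩ := ih V hV ((card_le_card hV.1).trans hU)
      exact ⟨W, h1.trans hV.1, h2, hg.trans h3⟩

omit [Fintype Ω] in
lemma lam_mono {r : ℝ} (hr : 0 < r) {G G' : Finset (Finset Ω)} (h : G ⊆ G') (R : Finset Ω) :
    lam r G R ≤ lam r G' R :=
  sum_le_sum_of_subset_of_nonneg (filter_subset_filter _ h) fun _ _ _ => by positivity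

omit [Fintype Ω] in
lemma lam_le {r : ℝ} (hr : 0 < r) (G : Finset (Finset Ω)) (R : Finset Ω) :
    lam r G R ≤ 1 + lam r (G.filter fun U => R ⊂ U) R := by
  have h : G.filter (fun U => R ⊆ U) ⊆
      insert R ((G.filter fun U => R ⊂ U).filter fun U => R ⊆ U) := by
    intro U hU
    rw [mem_filter] at hU
    by_cases h : U = R
    · simp [h]
    · simp only [mem_insert, mem_filter]
      exact Or.inr ⟨⟨hU.1, Finset.ssubset_iff_subset_ne.2 ⟨hU.2, Ne.symm h⟩⟩, hU.2⟩
  refine (sum_le_sum_of_subset_of_nonneg h fun _ _ _ => by positivity).trans (le_of_eq ?_)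
  rw [sum_insert (by simp)]
  simp [lam]

/-- Kraft inequality -/
lemma kraft {r p : ℝ} (hr : 0 < r) (hp : 0 < p) (hp1 : p ≤ 1) {d m : ℕ}
    (hd : 3 * (d : ℝ) ≤ r * p) {g : Finset Ω → ℝ} (hg : Monotone g)
    (hc : Closed (Pop p ^ m) d ((1 / 2) ^ m) g) (R : Finset Ω) :
    lam r ((strict d g).filter fun U => R ⊂ U) R ≤ 1 := by
  have hM := Mk_Pop (Ω := Ω) hp.le hp1
  obtain ⟨T, -, hT⟩ := exists_max_image (univ : Finset (Finset Ω))
    (fun T => lam r ((strict d g).filter fun U => T ⊂ U) T) univ_nonempty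
  refine (hT R (mem_univ _)).trans ?_
  by_contra hβ
  rw [not_le] at hβ
  set G := (strict d g).filter fun U => T ⊂ U with hG
  have hne : G.Nonempty := by
    rw [nonempty_iff_ne_empty]
    intro h
    rw [h] at hβ
    simp [lam] at hβ
    linarith
  obtain ⟨U0, hU0, hmin⟩ := exists_min_image G g hne
  have h1 := second hr hp hp1 hd G T (fun U hU => (mem_filter.1 hU).2.1)
    (fun U hU => (card_le_card sdiff_subset).trans (mem_strict.1 (mem_filter.1 hU).1).1)
    (β := 2 * lam r G T) (by linarith) (fun R _ => by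
      have a1 := lam_mono hr (filter_subset (fun U => T ⊂ U) (strict d g)) R
      have a2 := lam_le hr (strict d g) R
      have a3 := hT R (mem_univ _)
      linarith)
  have h2 : lam r G T / (lam r G T + 2 * lam r G T / 2) = 1 / 2 := by
    have : lam r G T ≠ 0 := by linarith
    field_simp
    norm_num
  rw [h2] at h1
  have h3 : Pop p (fun y => ind (g y < g U0)) T ≤ 1 / 2 := by
    have a1 : Pop p (fun y => ind (g y < g U0)) T ≤
        Pop p (fun y => 1 - ind (∃ U ∈ G, U ⊆ y)) T := by
      refine hM.mono fun A => ?_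
      rw [← ind_not]
      refine ind_mono fun h => ?_
      rintro ⟨U, hU, hs⟩
      exact absurd h (not_lt.2 ((hmin U hU).trans (hg hs)))
    rw [Mk.sub, hM.one] at a1
    linarith
  have h4 := hM.pow_anti (fun y => g y < g U0) (fun x y hxy h => (hg hxy).trans_lt h) T m
  have h5 := h4.trans (pow_le_pow_left₀ (hM.pos _ _ fun A => ind_nonneg _) h3 m)
  obtain ⟨b1, b2⟩ := mem_filter.1 hU0
  obtain ⟨b3, b4⟩ := mem_strict.1 b1
  exact absurd (b4 T b2) (not_lt.2 (hc T U0 ((card_le_card b2.1).trans b3) h5))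

end Pool.Agent.Lib.MP_7836d5_lc.Neg
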