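import Mathlib

set_option autoImplicit false

/-! The polynomial code: graphs of polynomials of degree `< D`, four values per position. -/

namespace Pool.Agent.Lib.MP_7836d5_lc.Neg

open Finset

variable {F : Type} [Field F] [Fintype F] [DecidableEq F]

lemma Code_fiber (D : ℕ) (P : Finset F) (hP : P.card ≤ D) (c0 : Fin D → F) :
    (univ.filter fun c : Fin D → F => ∀ a ∈ P, ∑ l : Fin D, a ^ l.1 * c l =
      ∑ l : Fin D, a ^ l.1 * c0 l).card ≤ Fintype.card F ^ (D - P.card) := by
  have h := card_le_card_of_injOn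
    (s := univ.filter fun c : Fin D → F => ∀ a ∈ P, ∑ l : Fin D, a ^ l.1 * c l =
      ∑ l : Fin D, a ^ l.1 * c0 l) (t := (univ : Finset (Fin (D - P.card) → F)))
    (fun c j => c ⟨P.card + j.1, by have := j.2; omega⟩) (fun _ _ => mem_univ _) ?_
  · simpa using h
  intro c hc c' hc' e
  simp only [coe_filter, mem_univ, true_and, Set.mem_ofPred_eq] at hc hc'
  have hco : ∀ j : Fin D, (∑ l : Fin D, Polynomial.monomial l.1 (c l - c' l)).coeff j.1 =
      c j - c' j := by
    intro j
    rw [Polynomial.finsetSum_coeff, sum_eq_single j]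
    · simp
    · intro l _ hl
      rw [Polynomial.coeff_monomial, if_neg fun h => hl (Fin.ext h)]
    · simp
  have h0 : (∑ l : Fin D, Polynomial.monomial l.1 (c l - c' l)) = 0 := by
    refine Polynomial.eq_zero_of_degree_lt_of_eval_finset_eq_zero P ?_ fun a ha => ?_
    · rw [Polynomial.degree_lt_iff_coeff_zero]
      intro m hm
      by_cases h1 : m < D
      · rw [hco ⟨m, h1⟩, sub_eq_zero]
        have := congrFun e ⟨m - P.card, by omega⟩
        simpa [show P.card + (m - P.card) = m by omega] using this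
      · rw [Polynomial.finsetSum_coeff]
        refine sum_eq_zero fun l _ => ?_
        have := l.2
        rw [Polynomial.coeff_monomial, if_neg (by omega)]
    · have := (hc a ha).trans (hc' a ha).symm
      rw [← sub_eq_zero, ← sum_sub_distrib] at this
      rw [Polynomial.eval_finsetSum, ← this]
      refine sum_congr rfl fun l _ => ?_
      rw [Polynomial.eval_monomial]
      ring
  funext j
  rw [← sub_eq_zero, ← hco j, h0, Polynomial.coeff_zero]

/-- the point of the codeword `c` at the position `i` -/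
def cPt {K D : ℕ} (α : ℕ → Fin 4 → F) (c : Fin D → F) (i : Fin K) : Fin K × F × F × F × F :=
  (i, ∑ l : Fin D, α i 0 ^ l.1 * c l, ∑ l : Fin D, α i 1 ^ l.1 * c l,
    ∑ l : Fin D, α i 2 ^ l.1 * c l, ∑ l : Fin D, α i 3 ^ l.1 * c l)

/-- the codeword of `c` -/
def cS {K D : ℕ} (α : ℕ → Fin 4 → F) (c : Fin D → F) : Finset (Fin K × F × F × F × F) :=
  univ.image (cPt α c)

omit [Fintype F] in
lemma cS_card {K D : ℕ} (α : ℕ → Fin 4 → F) (c : Fin D → F) : (cS (K := K) α c).card = K := by
  rw [cS, card_image_of_injective _ fun i j h => congrArg Prod.fst h]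
  simp

omit [Fintype F] in
lemma cS_subset {K D : ℕ} (α : ℕ → Fin 4 → F) (c : Fin D → F)
    (x : Finset (Fin K × F × F × F × F)) : cS α c ⊆ x ↔ ∀ i, cPt α c i ∈ x := by
  simp [cS, image_subset_iff]

omit [Fintype F] in
lemma cS_mem {K D : ℕ} {α : ℕ → Fin 4 → F} {c : Fin D → F} {u : Fin K × F × F × F × F}
    (h : u ∈ cS α c) : u = cPt α c u.1 := by
  obtain ⟨i, -, rfl⟩ := mem_image.1 h
  rfl

lemma cS_spread {K D : ℕ} (α : ℕ → Fin 4 → F)
    (hα : Function.Injective fun p : Fin K × Fin 4 => α p.1 p.2)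
    (U : Finset (Fin K × F × F × F × F)) (hU : 4 * U.card ≤ D) :
    ((univ.filter fun c : Fin D → F => U ⊆ cS α c).card : ℝ) ≤
      (1 / (Fintype.card F : ℝ) ^ 4) ^ U.card * Fintype.card (Fin D → F) := by
  rcases (univ.filter fun c : Fin D → F => U ⊆ cS α c).eq_empty_or_nonempty with h | ⟨c0, h⟩
  · rw [h, card_empty, Nat.cast_zero]
    positivity
  have h0 := (mem_filter.1 h).2
  have hP : (((U.image Prod.fst) ×ˢ (univ : Finset (Fin 4))).image
      fun p : Fin K × Fin 4 => α p.1 p.2).card = 4 * U.card := by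
    rw [card_image_of_injective _ hα, card_product, card_image_of_injOn, card_univ,
      Fintype.card_fin, mul_comm]
    intro u hu u' hu' e
    rw [cS_mem (h0 hu), cS_mem (h0 hu'), e]
  have h1 := Code_fiber D _ (hP.le.trans hU) c0
  rw [hP] at h1
  have h2 : (univ.filter fun c : Fin D → F => U ⊆ cS α c).card ≤
      Fintype.card F ^ (D - 4 * U.card) := by
    refine le_trans (card_le_card fun c hc => ?_) h1
    refine mem_filter.2 ⟨mem_univ _, fun a ha => ?_⟩
    obtain ⟨⟨i, r⟩, hp, rfl⟩ := mem_image.1 ha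
    obtain ⟨u, hu, rfl⟩ := mem_image.1 (mem_product.1 hp).1
    have e := (cS_mem ((mem_filter.1 hc).2 hu)).symm.trans (cS_mem (h0 hu))
    simp only [cPt, Prod.mk.injEq, true_and] at e
    fin_cases r
    exacts [e.1, e.2.1, e.2.2.1, e.2.2.2]
  have hq : (0 : ℝ) < Fintype.card F := by exact_mod_cast Fintype.card_pos
  refine le_trans (Nat.cast_le.2 h2) (le_of_eq ?_)
  rw [Fintype.card_fun, Fintype.card_fin, Nat.cast_pow, Nat.cast_pow, pow_sub₀ _ hq.ne' hU,
    pow_mul, one_div, inv_pow, mul_comm]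

/-- distinct evaluation points in `ZMod q` -/
lemma Code_inj (K q : ℕ) (h : 4 * K ≤ q) :
    Function.Injective fun p : Fin K × Fin 4 => ((4 * p.1.1 + p.2.1 : ℕ) : ZMod q) := by
  rintro ⟨i, r⟩ ⟨i', r'⟩ e
  have h1 := i.2
  have h2 := i'.2
  have h3 := r.2
  have h4 := r'.2
  have := (ZMod.natCast_eq_natCast_iff' _ _ _).1 e
  simp only at this
  rw [Nat.mod_eq_of_lt (by omega), Nat.mod_eq_of_lt (by omega)] at this
  exact Prod.ext (Fin.ext (by simp only; omega)) (Fin.ext (by simp only; omega))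

end Pool.Agent.Lib.MP_7836d5_lc.Neg
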