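import Pool.Agent.Lib.MP_7836d5_lc.LP.Defs

set_option autoImplicit false

namespace Pool.Agent.Lib.MP_7836d5_lc.Neg

/-- `f` is computed by a Boolean circuit with `s` gates, at most `t` of which are negations.
`val g z` is the value of the gate `g` on the input `z`. A gate is an input bit, a constant, the
conjunction or the disjunction of two earlier gates, or the negation of an earlier gate; all
negations lie in the set `N`. The gate `o` is the output. -/
def NegCirc {X : Type} (f : (X → Bool) → Prop) (s t : ℕ) : Prop :=
  ∃ (val : Fin s → (X → Bool) → Bool) (N : Finset (Fin s)) (o : Fin s),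
    N.card ≤ t ∧ (∀ z, f z ↔ val o z = true) ∧ ∀ g,
      (∃ x, ∀ z, val g z = z x) ∨ (∃ b, ∀ z, val g z = b) ∨
      (∃ j < g, ∃ l < g, ∀ z, val g z = (val j z && val l z)) ∨
      (∃ j < g, ∃ l < g, ∀ z, val g z = (val j z || val l z)) ∨
      (g ∈ N ∧ ∃ j < g, ∀ z, val g z = !val j z)

end Pool.Agent.Lib.MP_7836d5_lc.Neg
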