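import Pool.Agent.Lib.MP_7836d5_lc.Neg.Step
import Pool.Agent.Lib.MP_7836d5_lc.Neg.Circ

set_option autoImplicit false

/-! Small monotone circuits accept the planted set no more often than a sprinkled random set. -/

namespace Pool.Agent.Lib.MP_7836d5_lc.Neg

open Finset

variable {Ω I : Type} [DecidableEq Ω]

/-- monotone circuits -/
def MCirc {s : ℕ} (val : Fin s → Finset Ω → ℝ) : Prop :=
  ∀ g, (Monotone (val g) ∧ Det 1 (val g)) ∨
    ∃ j < g, ∃ l < g, ∃ φ : ℝ × ℝ → ℝ, Monotone φ ∧ ∀ x, val g x = φ (val j x, val l x)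

lemma MCirc.mono {s : ℕ} {val : Fin s → Finset Ω → ℝ} (h : MCirc val) (g : Fin s) :
    Monotone (val g) := by
  induction g using WellFoundedLT.induction with
  | ind g ih =>
    rcases h g with h1 | ⟨j, hj, l, hl, φ, hφ, h1⟩
    · exact h1.1
    · intro x y hxy
      rw [h1, h1]
      exact hφ ⟨ih j hj hxy, ih l hl hxy⟩

lemma MCirc.shift {s : ℕ} {val : Fin s → Finset Ω → ℝ} (h : MCirc val) (x : Finset Ω) :
    MCirc fun g y => val g (x ∪ y) := by
  intro g
  rcases h g with ⟨h1, h2⟩ | ⟨j, hj, l, hl, φ, hφ, h1⟩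
  · refine Or.inl ⟨fun y z hyz => h1 (union_subset_union Subset.rfl hyz), fun y => ?_⟩
    obtain ⟨U, a1, a2, a3⟩ := h2 (x ∪ y)
    refine ⟨U \ x, fun u hu => ?_, (card_le_card sdiff_subset).trans a2, a3.trans (h1 ?_)⟩
    · rw [mem_sdiff] at hu
      exact (mem_union.1 (a1 hu.1)).resolve_left hu.2
    · intro u hu
      by_cases hx : u ∈ x <;> simp [hx, hu]
  · exact Or.inr ⟨j, hj, l, hl, φ, hφ, fun y => h1 _⟩

lemma ind_exists_le {ι : Type} [Fintype ι] (P : ι → Prop) : ind (∃ i, P i) ≤ ∑ i, ind (P i) := by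
  by_cases h : ∃ i, P i
  · obtain ⟨i, hi⟩ := h
    refine (ind_le_one _).trans ?_
    rw [← ind_pos hi]
    exact single_le_sum (f := fun i => ind (P i)) (fun _ _ => ind_nonneg _) (mem_univ i)
  · rw [ind_neg h]
    exact sum_nonneg fun _ _ => ind_nonneg _

variable [Fintype Ω] [Fintype I]

lemma dom (S : I → Finset Ω) {κ r p : ℝ} {w m : ℕ} (hw : 1 ≤ w) (hm : 1 ≤ m) (hκ : 0 ≤ κ)
    (hr : 0 < r) (hrκ : r * κ ≤ 1 / 2) (hp : 6 * (w : ℝ) ≤ r * p) (hp0 : 0 ≤ p) (hp1 : p ≤ 1)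
    (hS : ∀ U : Finset Ω, U.card ≤ 2 * w →
      ((univ.filter fun i => U ⊆ S i).card : ℝ) ≤ κ ^ U.card * Fintype.card I)
    {s : ℕ} (val : Fin s → Finset Ω → ℝ) (hc : MCirc val) (out : Fin s) :
    ∑ i, ind (0 < val out (S i)) ≤ ((Pop p ^ m) (fun y => ind (0 < val out y)) ∅ +
      s * ((r * κ) ^ (w + 1) + (Fintype.card Ω + 1) ^ (4 * w) / 2 ^ m)) * Fintype.card I := by
  classical
  have hQ := (Mk_Pop (Ω := Ω) hp0 hp1).pow m
  have hI : (0 : ℝ) ≤ Fintype.card I := by positivity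
  choose st st1 st2 st3 st4 st5 using step S hw hm hκ hr hrκ hp hp1 hS
  -- approximators `a g` and the functions `h g` they are obtained from
  have key : ∀ n ≤ s, ∃ a h : Fin s → Finset Ω → ℝ, ∀ g : Fin s, g.1 < n →
      (Monotone (a g) ∧ Det w (a g) ∧
      ∑ i, ind (a g (S i) < h g (S i)) ≤ (r * κ) ^ (w + 1) * Fintype.card I ∧
      (Pop p ^ m) (fun y => ind (h g y < a g y)) ∅ ≤ (Fintype.card Ω + 1) ^ (4 * w) / 2 ^ m ∧
      ∑ i, ind (0 < a g (S i)) ≤ (Pop p ^ m) (fun y => ind (0 < a g y)) ∅ * Fintype.card I) ∧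
      (h g = val g ∨ ∃ j < g, ∃ l < g, ∃ φ : ℝ × ℝ → ℝ, Monotone φ ∧
        (∀ x, val g x = φ (val j x, val l x)) ∧ ∀ x, h g x = φ (a j x, a l x)) := by
    intro n
    induction n with
    | zero => exact fun _ => ⟨val, val, fun g hg => absurd hg (Nat.not_lt_zero _)⟩
    | succ n ih =>
      intro hn
      obtain ⟨a, h, H⟩ := ih (by omega)
      set g0 : Fin s := ⟨n, hn⟩ with hg0
      have ex : ∃ h0 : Finset Ω → ℝ, Monotone h0 ∧ Det (2 * w) h0 ∧
          (h0 = val g0 ∨ ∃ j < g0, ∃ l < g0, ∃ φ : ℝ × ℝ → ℝ, Monotone φ ∧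
          (∀ x, val g0 x = φ (val j x, val l x)) ∧ ∀ x, h0 x = φ (a j x, a l x)) := by
        rcases hc g0 with ⟨h1, h2⟩ | ⟨j, hj, l, hl, φ, hφ, h1⟩
        · refine ⟨val g0, h1, fun x => ?_, Or.inl rfl⟩
          obtain ⟨U, a1, a2, a3⟩ := h2 x
          exact ⟨U, a1, by omega, a3⟩
        · obtain ⟨⟨j1, j2, -⟩, -⟩ := H j hj
          obtain ⟨⟨l1, l2, -⟩, -⟩ := H l hl
          refine ⟨fun x => φ (a j x, a l x), fun x y hxy => hφ ⟨j1 hxy, l1 hxy⟩, fun x => ?_,
            Or.inr ⟨j, hj, l, hl, φ, hφ, h1, fun _ => rfl⟩⟩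
          obtain ⟨U, a1, a2, a3⟩ := j2 x
          obtain ⟨V, b1, b2, b3⟩ := l2 x
          refine ⟨U ∪ V, union_subset a1 b1, (card_union_le _ _).trans (by omega),
            hφ ⟨a3.trans (j1 subset_union_left), b3.trans (l1 subset_union_right)⟩⟩
      obtain ⟨h0, c1, c2, c3⟩ := ex
      have up : ∀ j : Fin s, j.1 < n → Function.update a g0 (st h0 c1 c2) j = a j :=
        fun j hj => Function.update_of_ne (fun e => by simp [e, hg0] at hj) _ _
      refine ⟨Function.update a g0 (st h0 c1 c2), Function.update h g0 h0, fun g hg => ?_⟩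
      by_cases e : g = g0
      · subst e
        rw [Function.update_self, Function.update_self]
        refine ⟨⟨st1 _ _ _, st2 _ _ _, st3 _ _ _, st4 _ _ _, st5 _ _ _⟩, c3.imp_right ?_⟩
        rintro ⟨j, hj, l, hl, φ, d1, d2, d3⟩
        exact ⟨j, hj, l, hl, φ, d1, d2, by rw [up j hj, up l hl]; exact d3⟩
      · have hg' : g.1 < n := by
          have : g.1 ≠ n := fun h => e (Fin.ext h)
          omega
        rw [Function.update_of_ne e, Function.update_of_ne e]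
        refine ⟨(H g hg').1, (H g hg').2.imp_right ?_⟩
        rintro ⟨j, hj, l, hl, φ, d1, d2, d3⟩
        refine ⟨j, hj, l, hl, φ, d1, d2, ?_⟩
        rw [up j (lt_trans hj hg'), up l (lt_trans hl hg')]
        exact d3
  obtain ⟨a, h, H⟩ := key s le_rfl
  have up : ∀ x, (∀ g, h g x ≤ a g x) → ∀ g, val g x ≤ a g x := by
    intro x hx g
    induction g using WellFoundedLT.induction with
    | ind g ih =>
      refine le_trans ?_ (hx g)
      rcases (H g g.2).2 with h1 | ⟨j, hj, l, hl, φ, d1, d2, d3⟩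
      · rw [h1]
      · rw [d2, d3]
        exact d1 ⟨ih j hj, ih l hl⟩
  have lo : ∀ x, (∀ g, a g x ≤ h g x) → ∀ g, a g x ≤ val g x := by
    intro x hx g
    induction g using WellFoundedLT.induction with
    | ind g ih =>
      refine le_trans (hx g) ?_
      rcases (H g g.2).2 with h1 | ⟨j, hj, l, hl, φ, d1, d2, d3⟩
      · rw [h1]
      · rw [d2, d3]
        exact d1 ⟨ih j hj, ih l hl⟩
  have e1 : ∑ i, ind (0 < val out (S i)) ≤
      ∑ i, (ind (0 < a out (S i)) + ∑ g, ind (a g (S i) < h g (S i))) := by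
    refine sum_le_sum fun i _ => le_trans (ind_mono fun h0 => ?_)
      ((ind_or_le _ _).trans (add_le_add le_rfl (ind_exists_le _)))
    by_cases hb : ∃ g, a g (S i) < h g (S i)
    · exact Or.inr hb
    · exact Or.inl (h0.trans_le (up _ (fun g => not_lt.1 fun h' => hb ⟨g, h'⟩) out))
  have e2 : (Pop p ^ m) (fun y => ind (0 < a out y)) ∅ ≤
      (Pop p ^ m) (fun y => ind (0 < val out y) + ∑ g, ind (h g y < a g y)) ∅ := by
    refine hQ.mono fun A => le_trans (ind_mono fun h0 => ?_)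
      ((ind_or_le _ _).trans (add_le_add le_rfl (ind_exists_le _)))
    by_cases hb : ∃ g, h g (∅ ∪ A) < a g (∅ ∪ A)
    · exact Or.inr hb
    · exact Or.inl (h0.trans_le (lo _ (fun g => not_lt.1 fun h' => hb ⟨g, h'⟩) out))
  rw [Mk.add, Mk.sum] at e2
  rw [sum_add_distrib, sum_comm] at e1
  have e3 : ∑ g, ∑ i, ind (a g (S i) < h g (S i)) ≤ s * ((r * κ) ^ (w + 1) * Fintype.card I) := by
    refine (sum_le_sum fun g _ => (H g g.2).1.2.2.1).trans ?_
    simp
  have e4 : ∑ g, (Pop p ^ m) (fun y => ind (h g y < a g y)) ∅ ≤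
      s * ((Fintype.card Ω + 1) ^ (4 * w) / 2 ^ m) := by
    refine (sum_le_sum fun g _ => (H g g.2).1.2.2.2.1).trans ?_
    simp
  have e5 := (H out out.2).1.2.2.2.2
  have e6 := mul_le_mul_of_nonneg_right (e2.trans (add_le_add le_rfl e4)) hI
  linarith

end Pool.Agent.Lib.MP_7836d5_lc.Neg
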