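import Pool.Agent.Lib.MP_7836d5_lc.LP.Defs

set_option autoImplicit false

/-! An oblivious zigzag machine: it guesses `D` coefficients and runs `R` rounds. -/

namespace Pool.Agent.Lib.MP_7836d5_lc.Neg

open Finset Pool.Agent.Lib.MP_7836d5_lc.LP

variable {F : Type} [CommRing F]

/-- one move: round `ρ`, phase `j`, accumulator `a`, symbol `b` -/
def ZMv (D : ℕ) (A B : ℕ → ℕ → F) (Sp : ℕ → F → F → F → F → Prop)
    (ρ j : ℕ) (a b : F) (ρ' j' : ℕ) (a' b' : F) (d : Bool) : Prop :=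
  (j < D ∧ ρ' = ρ ∧ j' = j + 1 ∧ (ρ = 0 ∨ b' = b) ∧ a' = a + A ρ j * b' ∧ d = true) ∨
  (j = D ∧ ρ' = ρ ∧ j' = j + 1 ∧ Sp ρ a b a' b' ∧ d = false) ∨
  (D < j ∧ j < 2 * D + 1 ∧ ρ' = ρ ∧ j' = j + 1 ∧ b' = b ∧ a' = a - B ρ (2 * D - j) * b ∧
    d = false) ∨
  (j = 2 * D + 1 ∧ ρ' = ρ + 1 ∧ j' = 0 ∧ a = 0 ∧ a' = 0 ∧ b' = b ∧ d = true)

open Classical in
/-- the transition table -/
noncomputable def zz (D R : ℕ) (A B : ℕ → ℕ → F) (Sp : ℕ → F → F → F → F → Prop)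
    (t : (Fin (R + 1) × Fin (2 * D + 2) × F) × F × (Fin (R + 1) × Fin (2 * D + 2) × F) × F × Bool) :
    Bool :=
  decide (ZMv D A B Sp t.1.1 t.1.2.1 t.1.2.2 t.2.1 t.2.2.1.1 t.2.2.1.2.1 t.2.2.1.2.2 t.2.2.2.1
    t.2.2.2.2)

/-- the invariant of a run -/
def ZInv (D : ℕ) (A B : ℕ → ℕ → F) (Sp : ℕ → F → F → F → F → Prop) (ρ j : ℕ) (a : F)
    (tape : ℤ → F) (pos : ℤ) : Prop :=
  ∃ s : ℕ → F, s 0 = 0 ∧ (∀ σ < ρ, Sp σ (∑ l ∈ range D, A σ l * tape l) (s σ)
      (∑ l ∈ range D, B σ l * tape l) (s (σ + 1))) ∧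
    ((j ≤ D ∧ pos = j ∧ a = ∑ l ∈ range j, A ρ l * tape l ∧ tape D = s ρ) ∨
     (D < j ∧ pos = 2 * D - j ∧ Sp ρ (∑ l ∈ range D, A ρ l * tape l) (s ρ)
      (∑ l ∈ range D, B ρ l * tape l - ∑ l ∈ range (2 * D + 1 - j), B ρ l * tape l + a) (tape D)))

lemma ZZ_upd (w : ℕ → F) (tape : ℤ → F) (j i : ℕ) (hj : j ≤ i) (b : F) :
    ∑ l ∈ range j, w l * Function.update tape (i : ℤ) b l = ∑ l ∈ range j, w l * tape l := by
  refine sum_congr rfl fun l hl => ?_
  rw [Function.update_of_ne]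
  have := mem_range.1 hl
  omega

lemma ZInv_step (D : ℕ) (A B : ℕ → ℕ → F) (Sp : ℕ → F → F → F → F → Prop) (ρ j : ℕ) (a : F)
    (tape : ℤ → F) (pos : ℤ) (ρ' j' : ℕ) (a' b' : F) (d : Bool)
    (h : ZInv D A B Sp ρ j a tape pos) (hm : ZMv D A B Sp ρ j a (tape pos) ρ' j' a' b' d) :
    ZInv D A B Sp ρ' j' a' (Function.update tape pos b')
      (if d = true then pos + 1 else pos - 1) := by
  obtain ⟨s, h0, h1, h2⟩ := h
  rcases hm with ⟨m1, rfl, rfl, m2, rfl, rfl⟩ | ⟨rfl, rfl, rfl, m2, rfl⟩ |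
    ⟨m0, m1, rfl, rfl, rfl, rfl, rfl⟩ | ⟨rfl, rfl, rfl, rfl, rfl, rfl, rfl⟩
  · rcases h2 with ⟨-, rfl, rfl, h3⟩ | ⟨h3, -⟩
    · refine ⟨s, h0, fun σ hσ => ?_, Or.inl ⟨m1, by simp, ?_, ?_⟩⟩
      · rcases m2 with rfl | rfl
        · omega
        · rw [Function.update_eq_self]
          exact h1 σ hσ
      · rw [sum_range_succ, ZZ_upd _ _ _ _ le_rfl, Function.update_self]
      · rw [Function.update_of_ne (by omega), h3]
    · omega
  · rcases h2 with ⟨-, rfl, rfl, h3⟩ | ⟨h3, -⟩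
    · refine ⟨s, h0, fun σ hσ => ?_, Or.inr ⟨by omega, by simp; ring, ?_⟩⟩
      · rw [ZZ_upd _ _ _ _ le_rfl, ZZ_upd _ _ _ _ le_rfl]
        exact h1 σ hσ
      · rw [show 2 * j + 1 - (j + 1) = j by omega, sub_self, zero_add, Function.update_self,
          ZZ_upd _ _ _ _ le_rfl, ← h3]
        exact m2
    · omega
  · rcases h2 with ⟨h3, -⟩ | ⟨-, h3, h4⟩
    · omega
    · rw [Function.update_eq_self]
      refine ⟨s, h0, h1, Or.inr ⟨by omega, by simp [h3]; ring, ?_⟩⟩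
      rw [show 2 * D + 1 - j = (2 * D - j) + 1 by omega, sum_range_succ] at h4
      rw [show 2 * D + 1 - (j + 1) = 2 * D - j by omega, h3,
        show (2 * D - j : ℤ) = ((2 * D - j : ℕ) : ℤ) by omega]
      convert h4 using 1
      ring
  · rcases h2 with ⟨h3, -⟩ | ⟨-, h3, h4⟩
    · omega
    · rw [Function.update_eq_self]
      refine ⟨Function.update s (ρ + 1) (tape D), by rw [Function.update_of_ne (by omega), h0],
        fun σ hσ => ?_, Or.inl ⟨by omega, by simp [h3], by simp, by simp⟩⟩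
      rw [Function.update_of_ne (by omega)]
      rcases Nat.lt_succ_iff_lt_or_eq.1 hσ with h5 | rfl
      · rw [Function.update_of_ne (by omega)]
        exact h1 σ h5
      · rw [Function.update_self]
        simpa using h4

lemma zz_sound (D R k : ℕ) (A B : ℕ → ℕ → F) (Sp : ℕ → F → F → F → F → Prop)
    (h : Halts (0, 0, 0) (Fin.last R, 0, 0) 0 k (zz D R A B Sp)) :
    ∃ c s : ℕ → F, s 0 = 0 ∧ ∀ ρ < R, Sp ρ (∑ l ∈ range D, A ρ l * c l) (s ρ)
      (∑ l ∈ range D, B ρ l * c l) (s (ρ + 1)) := by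
  obtain ⟨n, -, c, h0, hs, hh⟩ := h
  have key : ∀ i ≤ n, ZInv D A B Sp (c i).q.1 (c i).q.2.1 (c i).q.2.2 (c i).tape (c i).pos := by
    intro i
    induction i with
    | zero =>
      intro _
      rw [h0]
      exact ⟨fun _ => 0, rfl, by simp, Or.inl ⟨by simp, by simp, by simp, rfl⟩⟩
    | succ i ih =>
      intro hi
      obtain ⟨b, d, a1, a2, a3⟩ := hs i (by omega)
      rw [a2, a3]
      exact ZInv_step D A B Sp _ _ _ _ _ _ _ _ _ _ (ih (by omega)) (by simpa [zz] using a1)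
  obtain ⟨s, s0, s1, -⟩ := key n le_rfl
  rw [hh] at s1
  exact ⟨fun l => (c n).tape l, s, s0, fun ρ hρ => s1 ρ (by simpa using hρ)⟩

/-- reachable in exactly `n` steps -/
def ZReach {Q Γ : Type} (δ : Q × Γ × Q × Γ × Bool → Bool) (c0 : Cfg Q Γ) (n : ℕ) (e : Cfg Q Γ) :
    Prop :=
  ∃ c : ℕ → Cfg Q Γ, c 0 = c0 ∧ (∀ i < n, Step δ (c i) (c (i + 1))) ∧ c n = e

lemma ZReach_succ {Q Γ : Type} {δ : Q × Γ × Q × Γ × Bool → Bool} {c0 e e' : Cfg Q Γ} {n : ℕ}
    (h : ZReach δ c0 n e) (hs : Step δ e e') : ZReach δ c0 (n + 1) e' := by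
  obtain ⟨c, a0, a1, a2⟩ := h
  refine ⟨Function.update c (n + 1) e', ?_, fun l hl => ?_, Function.update_self _ _ _⟩
  · rw [Function.update_of_ne (by omega), a0]
  · rw [Function.update_of_ne (by omega)]
    rcases Nat.lt_succ_iff_lt_or_eq.1 hl with h1 | h1
    · rw [Function.update_of_ne (by omega)]
      exact a1 l h1
    · rw [h1, Function.update_self, a2]
      exact hs

/-- the tape of the intended run -/
def zTape (D : ℕ) (c s : ℕ → F) (ρ j : ℕ) (z : ℤ) : F :=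
  if z = D then (if j ≤ D then s ρ else s (ρ + 1))
  else if 0 ≤ z ∧ z < D ∧ (ρ ≠ 0 ∨ z < j) then c z.toNat else 0

/-- the configuration of the intended run -/
def zCfg (D R : ℕ) (A B : ℕ → ℕ → F) (c s : ℕ → F) (ρ : Fin (R + 1)) (j : Fin (2 * D + 2)) :
    Cfg (Fin (R + 1) × Fin (2 * D + 2) × F) F :=
  ⟨(ρ, j, if j.1 ≤ D then ∑ l ∈ range j, A ρ l * c l else ∑ l ∈ range (2 * D + 1 - j), B ρ l * c l),
    zTape D c s ρ j, if j.1 ≤ D then (j.1 : ℤ) else 2 * D - j.1⟩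

lemma zCfg_step (D R : ℕ) (A B : ℕ → ℕ → F) (Sp : ℕ → F → F → F → F → Prop) (c s : ℕ → F)
    (ρ : Fin (R + 1)) (h : Sp ρ (∑ l ∈ range D, A ρ l * c l) (s ρ)
      (∑ l ∈ range D, B ρ l * c l) (s (ρ + 1))) (j : ℕ) (hj : j + 1 < 2 * D + 2) :
    Step (zz D R A B Sp) (zCfg D R A B c s ρ ⟨j, by omega⟩) (zCfg D R A B c s ρ ⟨j + 1, hj⟩) := by
  rcases lt_trichotomy j D with h1 | rfl | h1
  · refine ⟨c j, true, ?_, ?_, ?_⟩
    · simp only [zz, zCfg, decide_eq_true_eq, if_pos h1.le, if_pos (show j + 1 ≤ D from h1)]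
      refine Or.inl ⟨h1, rfl, rfl, ?_, sum_range_succ _ _, rfl⟩
      rcases eq_or_ne ρ.1 0 with h2 | h2
      · exact Or.inl h2
      · refine Or.inr ?_
        rw [zTape, if_neg (by omega), if_pos ⟨by omega, by omega, Or.inl h2⟩]
        simp
    · funext z
      simp only [zCfg, if_pos h1.le]
      rcases eq_or_ne z j with rfl | h2
      · rw [Function.update_self, zTape, if_neg (by omega),
          if_pos ⟨by omega, by omega, Or.inr (by omega)⟩]
        simp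
      · rw [Function.update_of_ne h2]
        simp only [zTape, if_pos h1.le, if_pos (show j + 1 ≤ D from h1)]
        refine if_congr Iff.rfl rfl (if_congr ?_ rfl rfl)
        omega
    · simp only [zCfg, if_pos h1.le, if_pos (show j + 1 ≤ D from h1)]
      simp
  · refine ⟨s (ρ + 1), false, ?_, ?_, ?_⟩
    · simp only [zz, zCfg, decide_eq_true_eq, if_pos le_rfl, if_neg (show ¬j + 1 ≤ j by omega)]
      refine Or.inr (Or.inl ⟨rfl, rfl, rfl, ?_, rfl⟩)
      rw [show 2 * j + 1 - (j + 1) = j by omega, zTape, if_pos rfl, if_pos le_rfl]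
      exact h
    · funext z
      simp only [zCfg, if_pos le_rfl]
      rcases eq_or_ne z j with rfl | h2
      · rw [Function.update_self, zTape, if_pos rfl, if_neg (by omega)]
      · rw [Function.update_of_ne h2]
        simp only [zTape, if_neg h2]
        refine if_congr ?_ rfl rfl
        omega
    · simp only [zCfg, if_pos le_rfl, if_neg (show ¬j + 1 ≤ j by omega)]
      simp
      ring
  · have e1 : zTape D c s ρ (j + 1) = zTape D c s ρ j := by
      funext z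
      simp only [zTape, if_neg (show ¬j ≤ D by omega), if_neg (show ¬j + 1 ≤ D by omega)]
      refine if_congr Iff.rfl rfl (if_congr ?_ rfl rfl)
      omega
    refine ⟨zTape D c s ρ j (2 * D - j), false, ?_, ?_, ?_⟩
    · simp only [zz, zCfg, decide_eq_true_eq, if_neg (show ¬j ≤ D by omega),
        if_neg (show ¬j + 1 ≤ D by omega)]
      refine Or.inr (Or.inr (Or.inl ⟨h1, by omega, rfl, rfl, rfl, ?_, rfl⟩))
      rw [show 2 * D + 1 - j = (2 * D - j) + 1 by omega, sum_range_succ,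
        show 2 * D + 1 - (j + 1) = 2 * D - j by omega, zTape, if_neg (by omega),
        if_pos ⟨by omega, by omega, Or.inr (by omega)⟩,
        show (2 * D - j : ℤ).toNat = 2 * D - j by omega]
      ring
    · simp only [zCfg, if_neg (show ¬j ≤ D by omega), Function.update_eq_self, e1]
    · simp only [zCfg, if_neg (show ¬j ≤ D by omega), if_neg (show ¬j + 1 ≤ D by omega)]
      simp
      ring

lemma zCfg_turn (D R : ℕ) (A B : ℕ → ℕ → F) (Sp : ℕ → F → F → F → F → Prop) (c s : ℕ → F)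
    (ρ : ℕ) (hρ : ρ + 1 < R + 1) :
    Step (zz D R A B Sp) (zCfg D R A B c s ⟨ρ, by omega⟩ ⟨2 * D + 1, by omega⟩)
      (zCfg D R A B c s ⟨ρ + 1, hρ⟩ ⟨0, by omega⟩) := by
  have e1 : zTape D c s (ρ + 1) 0 = zTape D c s ρ (2 * D + 1) := by
    funext z
    simp only [zTape, if_neg (show ¬2 * D + 1 ≤ D by omega), if_pos (Nat.zero_le D)]
    refine if_congr Iff.rfl rfl (if_congr ?_ rfl rfl)
    omega
  refine ⟨zTape D c s ρ (2 * D + 1) (2 * D - (2 * D + 1 : ℕ)), true, ?_, ?_, ?_⟩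
  · simp only [zz, zCfg, decide_eq_true_eq, if_neg (show ¬2 * D + 1 ≤ D by omega),
      if_pos (Nat.zero_le D)]
    exact Or.inr (Or.inr (Or.inr ⟨rfl, rfl, rfl, by simp, by simp, rfl, rfl⟩))
  · simp only [zCfg, if_neg (show ¬2 * D + 1 ≤ D by omega), Function.update_eq_self, e1]
  · simp only [zCfg, if_neg (show ¬2 * D + 1 ≤ D by omega), if_pos (Nat.zero_le D)]
    simp

lemma zz_complete (D R k : ℕ) (hk : R * (2 * D + 2) ≤ k) (A B : ℕ → ℕ → F)
    (Sp : ℕ → F → F → F → F → Prop) (c s : ℕ → F) (s0 : s 0 = 0)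
    (h : ∀ ρ < R, Sp ρ (∑ l ∈ range D, A ρ l * c l) (s ρ)
      (∑ l ∈ range D, B ρ l * c l) (s (ρ + 1))) :
    Halts (0, 0, 0) (Fin.last R, 0, 0) 0 k (zz D R A B Sp) := by
  have key : ∀ ρ (hρ : ρ < R + 1), ZReach (zz D R A B Sp) ⟨(0, 0, 0), fun _ => 0, 0⟩
      (ρ * (2 * D + 2)) (zCfg D R A B c s ⟨ρ, hρ⟩ ⟨0, by omega⟩) := by
    intro ρ
    induction ρ with
    | zero =>
      intro hρ
      refine ⟨fun _ => _, rfl, by simp, ?_⟩
      simp only [zCfg, if_pos (Nat.zero_le D), Cfg.mk.injEq]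
      refine ⟨by simp, ?_, by simp⟩
      funext z
      simp only [zTape, if_pos (Nat.zero_le D), s0]
      rw [if_neg (show ¬(0 ≤ z ∧ z < D ∧ ((0 : ℕ) ≠ 0 ∨ z < (0 : ℕ))) by omega), ite_self]
    | succ ρ ih =>
      intro hρ
      have k2 : ∀ j (hj : j < 2 * D + 2), ZReach (zz D R A B Sp) ⟨(0, 0, 0), fun _ => 0, 0⟩
          (ρ * (2 * D + 2) + j) (zCfg D R A B c s ⟨ρ, by omega⟩ ⟨j, hj⟩) := by
        intro j
        induction j with
        | zero => exact fun _ => ih (by omega)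
        | succ j ih2 =>
          exact fun hj => ZReach_succ (ih2 (by omega))
            (zCfg_step D R A B Sp c s ⟨ρ, by omega⟩ (h ρ (by omega)) j hj)
      have := ZReach_succ (k2 (2 * D + 1) (by omega)) (zCfg_turn D R A B Sp c s ρ hρ)
      rwa [show ρ * (2 * D + 2) + (2 * D + 1) + 1 = (ρ + 1) * (2 * D + 2) by ring] at this
  obtain ⟨e, e0, e1, e2⟩ := key R (by omega)
  refine ⟨_, hk, e, e0, e1, ?_⟩
  rw [e2]
  simp [zCfg, Fin.last]

end Pool.Agent.Lib.MP_7836d5_lc.Neg
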