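import Pool.Agent.Lib.MP_7836d5_lc.LP.TM
import Pool.Agent.Lib.MP_7836d5_lc.Neg.ZZ

set_option autoImplicit false

/-! The halting function restricted to the optional transitions of the zigzag machine. -/

namespace Pool.Agent.Lib.MP_7836d5_lc.Neg

open Finset Pool.Agent.Lib.MP_7836d5_lc.LP

lemma Mach_mapT_cases {Q Γ Q' Γ' : Type} (eQ : Q ↪ Q') (eΓ : Γ ↪ Γ')
    (e : Q' × Γ' × Q' × Γ' × Bool) :
    (∀ δ, mapT eQ eΓ δ e = false) ∨ ∃ t, ∀ δ, mapT eQ eΓ δ e = δ t := by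
  by_cases h : ∃ q a q' a' d, e = (eQ q, eΓ a, eQ q', eΓ a', d)
  · obtain ⟨q, a, q', a', d, rfl⟩ := h
    refine Or.inr ⟨(q, a, q', a', d), fun δ => ?_⟩
    rw [Bool.eq_iff_iff]
    simp only [mapT, decide_eq_true_eq]
    refine ⟨?_, fun h => ⟨q, a, q', a', d, h, rfl⟩⟩
    rintro ⟨q1, a1, q2, a2, d1, h1, h2⟩
    simp only [Prod.mk.injEq, EmbeddingLike.apply_eq_iff_eq] at h2
    obtain ⟨rfl, rfl, rfl, rfl, rfl⟩ := h2
    exact h1
  · refine Or.inl fun δ => ?_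
    simp only [mapT, decide_eq_false_iff_not]
    rintro ⟨q, a, q', a', d, -, h2⟩
    exact h ⟨q, a, q', a', d, h2⟩

variable {F : Type} [CommRing F]

/-- even rounds swap state and scratch cell, odd rounds use an optional transition -/
def MSp {K : ℕ} (x : Fin K × F × F × F × F → Bool) (ρ : ℕ) (a b a' b' : F) : Prop :=
  (ρ % 2 = 0 ∧ a' = b ∧ b' = a) ∨ ∃ i : Fin K, ρ = 2 * i + 1 ∧ x (i, a, b, a', b') = true

/-- weights of the sweep to the right -/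
def MA (W : ℕ → Fin 4 → ℕ → F) (ρ : ℕ) : ℕ → F :=
  if ρ % 2 = 1 then W (ρ / 2) 0 else W (ρ / 2) 1

/-- weights of the sweep to the left -/
def MB (W : ℕ → Fin 4 → ℕ → F) (ρ : ℕ) : ℕ → F :=
  if ρ % 2 = 1 then W (ρ / 2) 2 else if ρ = 0 then fun _ => 0 else W (ρ / 2 - 1) 3

omit [CommRing F] in
lemma MA_odd (W : ℕ → Fin 4 → ℕ → F) (i : ℕ) : MA W (2 * i + 1) = W i 0 := by
  rw [MA, if_pos (by omega), show (2 * i + 1) / 2 = i by omega]

omit [CommRing F] in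
lemma MA_even (W : ℕ → Fin 4 → ℕ → F) (i : ℕ) : MA W (2 * i) = W i 1 := by
  rw [MA, if_neg (by omega), show (2 * i) / 2 = i by omega]

lemma MB_odd (W : ℕ → Fin 4 → ℕ → F) (i : ℕ) : MB W (2 * i + 1) = W i 2 := by
  rw [MB, if_pos (by omega), show (2 * i + 1) / 2 = i by omega]

lemma MB_even (W : ℕ → Fin 4 → ℕ → F) (i : ℕ) : MB W (2 * i + 1 + 1) = W i 3 := by
  rw [MB, if_neg (by omega), if_neg (by omega), show (2 * i + 1 + 1) / 2 - 1 = i by omega]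

lemma Mach_local (D R K : ℕ) (A B : ℕ → ℕ → F)
    (t : (Fin (R + 1) × Fin (2 * D + 2) × F) × F × (Fin (R + 1) × Fin (2 * D + 2) × F) × F × Bool) :
    (∃ b, ∀ x : Fin K × F × F × F × F → Bool, zz D R A B (MSp x) t = b) ∨
      ∃ a, ∀ x : Fin K × F × F × F × F → Bool, zz D R A B (MSp x) t = x a := by
  obtain ⟨⟨ρ, j, a⟩, b, ⟨ρ', j', a'⟩, b', d⟩ := t
  by_cases h : j.1 = D ∧ ρ'.1 = ρ.1 ∧ j'.1 = j.1 + 1 ∧ d = false ∧ ∃ i : Fin K, ρ.1 = 2 * i + 1
  · obtain ⟨h1, h2, h3, h4, i, h5⟩ := h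
    refine Or.inr ⟨(i, a, b, a', b'), fun x => ?_⟩
    rw [Bool.eq_iff_iff]
    simp only [zz, decide_eq_true_eq]
    constructor
    · rintro (⟨m, -⟩ | ⟨-, -, -, ⟨m, -⟩ | ⟨i', m, m'⟩, -⟩ | ⟨m, -⟩ | ⟨m, -⟩)
      · omega
      · omega
      · rwa [show i = i' from Fin.ext (by omega)]
      · omega
      · omega
    · exact fun hx => Or.inr (Or.inl ⟨h1, h2, h3, Or.inr ⟨i, h5, hx⟩, h4⟩)
  · refine Or.inl ⟨zz D R A B (MSp fun _ : Fin K × F × F × F × F => true)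
      ((ρ, j, a), b, (ρ', j', a'), b', d), fun x => ?_⟩
    rw [Bool.eq_iff_iff]
    simp only [zz, decide_eq_true_eq]
    refine or_congr_right (or_congr_left ?_)
    constructor
    · rintro ⟨h1, h2, h3, m | ⟨i, m, -⟩, h4⟩
      · exact ⟨h1, h2, h3, Or.inl m, h4⟩
      · exact (h ⟨h1, h2, h3, h4, i, m⟩).elim
    · rintro ⟨h1, h2, h3, m | ⟨i, m, -⟩, h4⟩
      · exact ⟨h1, h2, h3, Or.inl m, h4⟩
      · exact (h ⟨h1, h2, h3, h4, i, m⟩).elim

lemma Mach_iff (D K k : ℕ) (W : ℕ → Fin 4 → ℕ → F) (hk : (2 * K + 1) * (2 * D + 2) ≤ k)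
    (x : Fin K × F × F × F × F → Bool) :
    Halts (0, 0, 0) (Fin.last (2 * K + 1), 0, 0) 0 k (zz D (2 * K + 1) (MA W) (MB W) (MSp x)) ↔
      ∃ c : Fin D → F, ∀ i : Fin K, x (i, ∑ l : Fin D, W i 0 l * c l, ∑ l : Fin D, W i 1 l * c l,
        ∑ l : Fin D, W i 2 l * c l, ∑ l : Fin D, W i 3 l * c l) = true := by
  constructor
  · intro h
    obtain ⟨c, s, -, hs⟩ := zz_sound _ _ _ _ _ _ h
    refine ⟨fun l => c l, fun i => ?_⟩
    have hi := i.2
    have e : ∀ w : ℕ → F, ∑ l : Fin D, w l * c l = ∑ l ∈ range D, w l * c l :=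
      fun w => Fin.sum_univ_eq_sum_range (fun l => w l * c l) D
    simp only [e]
    rcases hs (2 * i) (by omega) with ⟨-, -, e1⟩ | ⟨i', m, -⟩
    swap
    · omega
    rcases hs (2 * i + 1 + 1) (by omega) with ⟨-, e2, -⟩ | ⟨i', m, -⟩
    swap
    · omega
    rcases hs (2 * i + 1) (by omega) with ⟨m, -⟩ | ⟨i', m, e3⟩
    · omega
    rw [MA_even] at e1
    rw [MB_even] at e2
    rw [MA_odd, MB_odd, e1, ← e2, show i' = i from Fin.ext (by omega)] at e3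
    exact e3
  · rintro ⟨c, hc⟩
    let c' : ℕ → F := fun l => if h : l < D then c ⟨l, h⟩ else 0
    have e : ∀ w : ℕ → F, ∑ l : Fin D, w l * c l = ∑ l ∈ range D, w l * c' l := by
      intro w
      rw [← Fin.sum_univ_eq_sum_range (fun l => w l * c' l) D]
      exact sum_congr rfl fun l _ => by simp [c']
    simp only [e] at hc
    refine zz_complete _ _ _ hk _ _ _ c' (fun ρ => if ρ % 2 = 1 then
      ∑ l ∈ range D, MA W (ρ - 1) l * c' l else ∑ l ∈ range D, MB W ρ l * c' l)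
      (by simp [MB]) fun ρ hρ => ?_
    rcases Nat.mod_two_eq_zero_or_one ρ with h | h
    · refine Or.inl ⟨h, ?_, ?_⟩
      · rw [if_neg (by omega)]
      · rw [if_pos (by omega), Nat.add_sub_cancel]
    · obtain ⟨i, rfl⟩ : ∃ i, ρ = 2 * i + 1 := ⟨ρ / 2, by omega⟩
      refine Or.inr ⟨⟨i, by omega⟩, rfl, ?_⟩
      rw [if_pos h, if_neg (by omega), Nat.add_sub_cancel, MA_odd, MA_even, MB_odd, MB_even]
      exact hc ⟨i, by omega⟩

/-- The halting function has the function `some codeword lies in x` as a restriction. -/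
theorem mach_main [Fintype F] (D K n k : ℕ) (W : ℕ → Fin 4 → ℕ → F)
    (hn : (2 * K + 2) * (2 * D + 2) * Fintype.card F ≤ n) (hk : (2 * K + 1) * (2 * D + 2) ≤ k)
    (q0 qh bl : Fin n) (hq : q0 ≠ qh) :
    ∃ T : (Fin K × F × F × F × F → Bool) → (Fin n × Fin n × Fin n × Fin n × Bool → Bool),
      (∀ e, (∃ b, ∀ x, T x e = b) ∨ ∃ a, ∀ x, T x e = x a) ∧
      ∀ x, Halts q0 qh bl k (T x) ↔ ∃ c : Fin D → F, ∀ i : Fin K,
        x (i, ∑ l : Fin D, W i 0 l * c l, ∑ l : Fin D, W i 1 l * c l,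
          ∑ l : Fin D, W i 2 l * c l, ∑ l : Fin D, W i 3 l * c l) = true := by
  obtain ⟨eQ, h0, h1⟩ := exists_emb2 (Q := Fin (2 * K + 1 + 1) × Fin (2 * D + 2) × F) (N := n)
    (by simp only [Fintype.card_prod, Fintype.card_fin]
        rw [← mul_assoc]
        exact hn) (0, 0, 0) (Fin.last (2 * K + 1), 0, 0)
    (fun h => by simpa [Fin.ext_iff] using congrArg Prod.fst h) q0 qh hq
  obtain ⟨eΓ, h2⟩ := exists_emb1 (Q := F) (N := n)
    (le_trans (Nat.le_mul_of_pos_left _ (by positivity)) hn) 0 bl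
  subst h0 h1 h2
  refine ⟨fun x => mapT eQ eΓ (zz D (2 * K + 1) (MA W) (MB W) (MSp x)), fun e => ?_,
    fun x => (halts_mapT eQ eΓ _ _ _ _ _).trans (Mach_iff D K k W hk x)⟩
  rcases Mach_mapT_cases eQ eΓ e with he | ⟨t, he⟩
  · exact Or.inl ⟨false, fun x => he _⟩
  · simp only [he]
    exact Mach_local D _ K _ _ t

end Pool.Agent.Lib.MP_7836d5_lc.Neg
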