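import Pool.Agent.Lib.MP_7836d5_lc.Neg.Dom

set_option autoImplicit false

/-! Fixing the negation gates and averaging along a chain of sprinkled sets. -/

namespace Pool.Agent.Lib.MP_7836d5_lc.Neg

open Finset

variable {Ω I : Type} [DecidableEq Ω]

/-- the circuit with the negation gates replaced by constants -/
noncomputable def ev {s : ℕ} (val : Fin s → Finset Ω → ℝ) (k : Fin s → ℕ) (j l : Fin s → Fin s)
    (φ : Fin s → ℝ × ℝ → ℝ) (B : Finset (Fin s)) (g : Fin s) (x : Finset Ω) : ℝ :=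
  if h : k g = 1 ∧ j g < g ∧ l g < g then
    φ g (ev val k j l φ B (j g) x, ev val k j l φ B (l g) x)
  else if k g = 2 then (if g ∈ B then 1 else 0) else val g x
termination_by g.1
decreasing_by
  · exact h.2.1
  · exact h.2.2

lemma split {s : ℕ} {val : Fin s → Finset Ω → ℝ} {Ng : Finset (Fin s)} (hc : Circ val Ng)
    (out : Fin s) : ∃ (v : Finset (Fin s) → Fin s → Finset Ω → ℝ) (J : Finset (Fin s)),
      J.card ≤ Ng.card + 1 ∧ (∀ B, MCirc (v B)) ∧ ∀ x y, x ⊆ y → ¬ 0 < val out x →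
        0 < val out y → ∃ B ∈ Ng.powerset, ∃ g ∈ J, ¬ 0 < v B g x ∧ 0 < v B g y := by
  classical
  have nf : ∀ g, ∃ (k : ℕ) (j l : Fin s) (φ : ℝ × ℝ → ℝ),
      (k = 0 ∧ Monotone (val g) ∧ Det 1 (val g)) ∨
      (k = 1 ∧ j < g ∧ l < g ∧ Monotone φ ∧ ∀ x, val g x = φ (val j x, val l x)) ∨
      (k = 2 ∧ g ∈ Ng ∧ j < g ∧ ∀ x, val g x = if 0 < val j x then 0 else 1) := by
    intro g
    rcases hc g with ⟨e, h⟩ | ⟨c, h⟩ | ⟨j, hj, l, hl, φ, hφ, h⟩ | ⟨hg, j, hj, h⟩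
    · refine ⟨0, g, g, fun _ => 0, Or.inl ⟨rfl, fun x y hxy => ?_, fun x => ?_⟩⟩
      · rw [h, h]
        by_cases hx : e ∈ x
        · rw [if_pos hx, if_pos (hxy hx)]
        · rw [if_neg hx]
          split_ifs <;> norm_num
      · by_cases hx : e ∈ x
        · exact ⟨{e}, by simpa using hx, by simp, by simp [h, hx]⟩
        · exact ⟨∅, by simp, by simp, by simp [h, hx]⟩
    · exact ⟨0, g, g, fun _ => 0, Or.inl ⟨rfl, fun x y _ => by rw [h, h],
        fun x => ⟨∅, by simp, by simp, by rw [h, h]⟩⟩⟩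
    · exact ⟨1, j, l, φ, Or.inr (Or.inl ⟨rfl, hj, hl, hφ, h⟩)⟩
    · exact ⟨2, j, j, fun _ => 0, Or.inr (Or.inr ⟨rfl, hg, hj, h⟩)⟩
  choose k j l φ H using nf
  have e0 : ∀ B g x, k g = 0 → ev val k j l φ B g x = val g x := by
    intro B g x h
    rw [ev, dif_neg (by simp [h]), if_neg (by simp [h])]
  have e1 : ∀ B g x, k g = 1 → j g < g → l g < g → ev val k j l φ B g x =
      φ g (ev val k j l φ B (j g) x, ev val k j l φ B (l g) x) := by
    intro B g x h h1 h2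
    rw [ev, dif_pos ⟨h, h1, h2⟩]
  have e2 : ∀ B g x, k g = 2 → ev val k j l φ B g x = if g ∈ B then 1 else 0 := by
    intro B g x h
    rw [ev, dif_neg (by simp [h]), if_pos h]
  have hM : ∀ B, MCirc (ev val k j l φ B) := by
    intro B g
    rcases H g with ⟨h0, h1, h2⟩ | ⟨h0, h1, h2, h3, -⟩ | ⟨h0, -⟩
    · rw [show ev val k j l φ B g = val g from funext fun x => e0 B g x h0]
      exact Or.inl ⟨h1, h2⟩
    · exact Or.inr ⟨_, h1, _, h2, _, h3, fun x => e1 B g x h0 h1 h2⟩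
    · exact Or.inl ⟨fun x y _ => by rw [e2 B g x h0, e2 B g y h0],
        fun x => ⟨∅, by simp, by simp, by rw [e2 B g x h0, e2 B g ∅ h0]⟩⟩
  refine ⟨ev val k j l φ, insert out (Ng.image j),
    (card_insert_le _ _).trans (Nat.succ_le_succ card_image_le), hM, fun x y hxy hx hy => ?_⟩
  set B := Ng.filter fun g => ¬ 0 < val (j g) x with hB
  refine ⟨B, mem_powerset.2 (filter_subset _ _), ?_⟩
  have a1 : ∀ g, ev val k j l φ B g x = val g x := by
    intro g
    induction g using WellFoundedLT.induction with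
    | ind g ih =>
      rcases H g with ⟨h0, -⟩ | ⟨h0, h1, h2, -, h4⟩ | ⟨h0, h1, -, h3⟩
      · exact e0 B g x h0
      · rw [e1 B g x h0 h1 h2, ih _ h1, ih _ h2, h4]
      · rw [e2 B g x h0, h3]
        by_cases h : 0 < val (j g) x <;> simp [hB, h, h1]
  by_contra hno
  simp only [not_exists, not_and] at hno
  have a2 : ∀ g, ev val k j l φ B g y = val g y := by
    intro g
    induction g using WellFoundedLT.induction with
    | ind g ih =>
      rcases H g with ⟨h0, -⟩ | ⟨h0, h1, h2, -, h4⟩ | ⟨h0, h1, h2, h3⟩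
      · exact e0 B g y h0
      · rw [e1 B g y h0 h1 h2, ih _ h1, ih _ h2, h4]
      · rw [e2 B g y h0, h3, ← ih _ h2]
        by_cases h : 0 < val (j g) x
        · have h' : 0 < ev val k j l φ B (j g) y := by
            rw [← a1] at h
            exact h.trans_le ((hM B).mono _ hxy)
          have hb : g ∉ B := fun hb => (mem_filter.1 hb).2 h
          rw [if_pos h', if_neg hb]
        · have h' := hno (j g) (mem_insert_of_mem (mem_image_of_mem j h1)) (by rwa [a1])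
          rw [if_neg h', if_pos (mem_filter.2 ⟨h1, h⟩)]
  exact hno out (mem_insert_self _ _) (by rwa [a1]) (by rwa [a2])

theorem neg_main {Ω I : Type} [Fintype Ω] [DecidableEq Ω] [Fintype I] [Nonempty I]
    (S : I → Finset Ω) (κ r p : ℝ) (w m J k' s t : ℕ) (hw : 1 ≤ w) (hm : 1 ≤ m) (hκ : 0 ≤ κ)
    (hr : 0 < r) (hrκ : r * κ ≤ 1 / 2) (hp : 6 * (w : ℝ) ≤ r * p) (hp1 : p ≤ 1)
    (hS : ∀ U : Finset Ω, U.card ≤ 2 * w →
      ((univ.filter fun i => U ⊆ S i).card : ℝ) ≤ κ ^ U.card * Fintype.card I)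
    (hk : ∀ i, (S i).card = k') (hJ : (Fintype.card I : ℝ) * (m * J * p) ^ k' ≤ 1 / 2)
    (val : Fin s → Finset Ω → ℝ) (Ng : Finset (Fin s)) (hc : Circ val Ng) (ht : Ng.card ≤ t)
    (out : Fin s) (hf : ∀ x, 0 < val out x ↔ ∃ i, S i ⊆ x) :
    (J : ℝ) / 2 ≤ 2 ^ t * (t + 1) *
      (1 + J * s * ((r * κ) ^ (w + 1) + (Fintype.card Ω + 1) ^ (4 * w) / 2 ^ m)) := by
  have hw' : (1 : ℝ) ≤ w := by exact_mod_cast hw
  have hp0 : 0 ≤ p := by
    by_contra h0
    nlinarith [mul_pos hr (neg_pos.2 (not_le.1 h0))]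
  have hQ := (Mk_Pop (Ω := Ω) hp0 hp1).pow m
  have hI : (0 : ℝ) < Fintype.card I := by exact_mod_cast Fintype.card_pos
  obtain ⟨v, Jg, v1, v2, v3⟩ := split hc out
  set ε : ℝ := (r * κ) ^ (w + 1) + (Fintype.card Ω + 1) ^ (4 * w) / 2 ^ m with hε
  have hε0 : 0 ≤ ε := by positivity
  set Q : Module.End ℝ (Finset Ω → ℝ) := Pop p ^ m with hQe
  set G : Finset (Fin s) × Fin s → Finset Ω → ℝ := fun b y => ind (0 < v b.1 b.2 y) with hG
  have c1 : ∀ b x, ∑ i, ind (¬ 0 < v b.1 b.2 x ∧ 0 < v b.1 b.2 (x ∪ S i)) ≤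
      (Q (G b) x - G b x + s * ε) * Fintype.card I := by
    intro b x
    by_cases hx : 0 < v b.1 b.2 x
    · have h1 : Q (G b) x = 1 := by
        rw [hQ.shift0, show (fun A => G b (x ∪ A)) = fun _ => 1 from funext fun A =>
          ind_pos (hx.trans_le ((v2 _).mono _ subset_union_left)), hQ.one]
      rw [sum_eq_zero fun i _ => ind_neg fun h => h.1 hx, h1, show G b x = 1 from ind_pos hx]
      have : 0 ≤ s * ε := by positivity
      exact mul_nonneg (by linarith) hI.le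
    · have h1 := dom S hw hm hκ hr hrκ hp hp0 hp1 hS _ ((v2 b.1).shift x) b.2
      rw [show G b x = 0 from ind_neg hx, sub_zero, hQ.shift0]
      exact (sum_le_sum fun i _ => ind_mono fun h => h.2).trans h1
  have c2 : ∀ x, 1 - ind (∃ i, S i ⊆ x) ≤
      ∑ b ∈ Ng.powerset ×ˢ Jg, (Q (G b) x - G b x + s * ε) := by
    intro x
    refine le_of_mul_le_mul_right ?_ hI
    rw [sum_mul]
    refine le_trans ?_ (sum_le_sum fun b _ => c1 b x)
    rw [sum_comm, ← ind_not]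
    refine le_trans (le_of_eq (by simp [mul_comm])) (sum_le_sum
      (f := fun _ => ind (¬ ∃ i, S i ⊆ x)) fun i _ => ?_)
    by_cases hx : ∃ i, S i ⊆ x
    · rw [ind_neg (not_not.2 hx)]
      exact sum_nonneg fun _ _ => ind_nonneg _
    · obtain ⟨B, hB, g, hg, h⟩ := v3 x (x ∪ S i) subset_union_left (by rwa [hf])
        ((hf _).2 ⟨i, subset_union_right⟩)
      refine (ind_le_one _).trans ?_
      rw [← ind_pos h]
      exact single_le_sum (f := fun b : Finset (Fin s) × Fin s =>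
        ind (¬ 0 < v b.1 b.2 x ∧ 0 < v b.1 b.2 (x ∪ S i))) (fun _ _ => ind_nonneg _)
        (a := (B, g)) (mem_product.2 ⟨hB, hg⟩)
  have c3 : ∀ n < J, (Q ^ n) (fun x => ind (∃ i, S i ⊆ x)) ∅ ≤ 1 / 2 := by
    intro n hn
    refine le_trans ((hQ.pow n).mono (g := fun x => ∑ i, ind (S i ⊆ x))
      fun A => ind_exists_le _) (le_trans ?_ hJ)
    rw [Mk.sum, hQe, ← pow_mul]
    refine (sum_le_sum (g := fun _ => ((m : ℝ) * J * p) ^ k') fun i _ => ?_).trans (by simp)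
    refine (Pop_pow_sub hp0 hp1 _ _ _).trans ?_
    rw [sdiff_empty, hk]
    refine pow_le_pow_left₀ (by positivity) (mul_le_mul_of_nonneg_right ?_ hp0) _
    exact_mod_cast Nat.mul_le_mul_left m hn.le
  have c4 : ∀ n < J, (1 : ℝ) / 2 ≤ ∑ b ∈ Ng.powerset ×ˢ Jg,
      ((Q ^ (n + 1)) (G b) ∅ - (Q ^ n) (G b) ∅ + s * ε) := by
    intro n hn
    have h1 := (hQ.pow n).mono (x := ∅) (f := fun x => 1 - ind (∃ i, S i ⊆ x))
      (g := fun x => ∑ b ∈ Ng.powerset ×ˢ Jg, (Q (G b) x - G b x + s * ε)) fun A => c2 _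
    rw [Mk.sub, (hQ.pow n).one, Mk.sum] at h1
    refine le_trans (by linarith [c3 n hn]) (h1.trans (le_of_eq (sum_congr rfl fun b _ => ?_)))
    rw [Mk.add, Mk.sub, (hQ.pow n).const, pow_succ]
    rfl
  have c5 := sum_le_sum fun n (hn : n ∈ range J) => c4 n (mem_range.1 hn)
  rw [sum_comm] at c5
  have c6 : ∀ b ∈ Ng.powerset ×ˢ Jg, ∑ n ∈ range J,
      ((Q ^ (n + 1)) (G b) ∅ - (Q ^ n) (G b) ∅ + s * ε) ≤ 1 + J * s * ε := by
    intro b _
    rw [sum_add_distrib, sum_range_sub fun n => (Q ^ n) (G b) ∅]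
    have h1 : (Q ^ J) (G b) ∅ ≤ 1 := by
      rw [← (hQ.pow J).one ∅]
      exact (hQ.pow J).mono fun A => ind_le_one _
    have h2 : 0 ≤ (Q ^ 0) (G b) ∅ := (hQ.pow 0).pos _ _ fun A => ind_nonneg _
    simp only [sum_const, card_range, nsmul_eq_mul]
    linarith
  have c7 := c5.trans (sum_le_sum c6)
  simp only [sum_const, card_range, nsmul_eq_mul, card_product, card_powerset] at c7
  have c8 : ((2 ^ Ng.card * Jg.card : ℕ) : ℝ) ≤ 2 ^ t * (t + 1) := by
    exact_mod_cast Nat.mul_le_mul (Nat.pow_le_pow_right two_pos ht) (by omega)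
  have c9 : 0 ≤ 1 + J * s * ε := by positivity
  linarith [mul_le_mul_of_nonneg_right c8 c9]

end Pool.Agent.Lib.MP_7836d5_lc.Neg
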