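import Mathlib

set_option autoImplicit false

/-! The choice of the parameters. -/

namespace Pool.Agent.Lib.MP_7836d5_lc.Neg

lemma params_exp {n L a b : ℕ} (hn : n < 2 ^ (L + 1)) (h : 2 ^ a ≤ b) (hb : b ≤ n ^ 4) :
    a < 4 * (L + 1) := by
  have h1 : n ^ 4 < (2 ^ (L + 1)) ^ 4 := Nat.pow_lt_pow_left hn (by norm_num)
  rw [← pow_mul] at h1
  have h2 : 2 ^ a < 2 ^ ((L + 1) * 4) := (h.trans hb).trans_lt h1
  have := (Nat.pow_lt_pow_iff_right (by norm_num)).1 h2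
  omega

theorem params {n k l v t : ℕ} (hn : 2 ≤ n) (hl : 1 ≤ l) (hv : 1 ≤ v)
    (h1 : 2000 * v ^ 2 * Nat.log 2 n ≤ l * k)
    (h2 : 2 ^ t * 4 ^ l * (k * Nat.log 2 n) ^ 8 ≤ n ^ 4) :
    ∃ q K m : ℕ, q.Prime ∧ 1 ≤ K ∧ 1 ≤ m ∧ 4 * K ≤ q ∧ 8 * v ≤ q ∧
      (2 * K + 2) * (2 * (8 * v) + 2) ≤ k ∧ k * q ≤ n ∧
      q ^ (8 * v) ≤ 2 ^ (l * K) ∧ (K * q ^ 4 + 1) ^ (4 * v) * 2 ^ (l * v) ≤ 2 ^ m ∧
      m * (4 * (2 ^ t * (t + 1))) * (6 * v * 2 ^ l) * 2 ^ (l + 1) ≤ q ^ 4 ∧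
      8 * (2 ^ t * (t + 1)) ≤ n ^ 4 := by
  have hL : 1 ≤ Nat.log 2 n := Nat.le_log_of_pow_le (by norm_num) (by simpa using hn)
  have hnL : n < 2 ^ (Nat.log 2 n + 1) := Nat.lt_pow_succ_log_self (by norm_num) n
  generalize Nat.log 2 n = L at h1 h2 hL hnL
  have hv2 : 1 ≤ v ^ 2 := Nat.one_le_pow _ _ hv
  have hk0 : 1 ≤ k := by
    rcases Nat.eq_zero_or_pos k with rfl | h
    · have : 0 < 2000 * v ^ 2 * L := by positivity
      omega
    · exact h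
  have hkL : 1 ≤ (k * L) ^ 8 := Nat.one_le_pow _ _ (Nat.mul_pos hk0 hL)
  have ht1 : 1 ≤ 2 ^ t := Nat.one_le_two_pow
  have hl1 : 1 ≤ 4 ^ l := Nat.one_le_pow _ _ (by norm_num)
  have h4l : 4 ^ l = 2 ^ (2 * l) := by rw [pow_mul]; norm_num
  have hlL : l ≤ 4 * L := by
    have := params_exp (a := 2 * l) hnL (b := 2 ^ t * 4 ^ l * (k * L) ^ 8) (by
      rw [← h4l]
      calc 4 ^ l = 1 * 4 ^ l * 1 := by ring
        _ ≤ _ := by gcongr) h2
    omega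
  have htL : t + 1 ≤ 8 * L := by
    have := params_exp (a := t) hnL (b := 2 ^ t * 4 ^ l * (k * L) ^ 8) (by
      calc 2 ^ t = 2 ^ t * 1 * 1 := by ring
        _ ≤ _ := by gcongr) h2
    omega
  have hvk : 500 * v ^ 2 ≤ k := by
    have h3 : 500 * v ^ 2 * (4 * L) ≤ k * (4 * L) := by
      calc 500 * v ^ 2 * (4 * L) = 2000 * v ^ 2 * L := by ring
        _ ≤ l * k := h1
        _ ≤ 4 * L * k := Nat.mul_le_mul_right _ hlL
        _ = _ := by ring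
    exact Nat.le_of_mul_le_mul_right h3 (by omega)
  have hk : 500 ≤ k := by omega
  have hkn : k ^ 2 ≤ n := by
    have h3 : (k ^ 2) ^ 4 ≤ n ^ 4 := by
      calc (k ^ 2) ^ 4 = 1 * 1 * (k * 1) ^ 8 := by ring
        _ ≤ 2 ^ t * 4 ^ l * (k * L) ^ 8 := by gcongr
        _ ≤ _ := h2
    exact (Nat.pow_le_pow_iff_left (by norm_num)).1 h3
  obtain ⟨K, hK1, hK2, hK3⟩ : ∃ K, 1 ≤ K ∧ 8 * v * (L + 1) ≤ l * K ∧ l * K ≤ 20 * (v * L) := by
    refine ⟨8 * v * (L + 1) / l + 1, Nat.le_add_left _ _, (Nat.lt_mul_div_succ _ hl).le, ?_⟩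
    have e1 := Nat.mul_div_le (8 * v * (L + 1)) l
    have e2 : v ≤ v * L := Nat.le_mul_of_pos_right _ hL
    have e3 : L ≤ v * L := Nat.le_mul_of_pos_left _ hv
    have e4 : 8 * v * (L + 1) = 8 * (v * L) + 8 * v := by ring
    rw [mul_add]
    omega
  have hKv : 72 * (K * v) ≤ k := by
    have h3 : l * (72 * (K * v)) ≤ l * k := by
      calc l * (72 * (K * v)) = 72 * v * (l * K) := by ring
        _ ≤ 72 * v * (20 * (v * L)) := by gcongr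
        _ = 1440 * v ^ 2 * L := by ring
        _ ≤ 2000 * v ^ 2 * L := by gcongr; norm_num
        _ ≤ _ := h1
    exact Nat.le_of_mul_le_mul_left h3 hl
  have hy : n / (2 * k) ≠ 0 := by
    have : 2 * k ≤ n := by nlinarith
    exact (Nat.div_pos this (by omega)).ne'
  obtain ⟨q, hq, hq1, hq2⟩ := Nat.exists_prime_lt_and_le_two_mul _ hy
  have hq3 : n < 2 * k * q :=
    (Nat.lt_mul_div_succ n (show 0 < 2 * k by omega)).trans_le (Nat.mul_le_mul_left _ hq1)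
  have hq4 : k * q ≤ n := by
    calc k * q ≤ k * (2 * (n / (2 * k))) := Nat.mul_le_mul_left _ hq2
      _ = 2 * k * (n / (2 * k)) := by ring
      _ ≤ n := Nat.mul_div_le _ _
  have hq5 : k < 2 * q := by
    have h3 : k * k < k * (2 * q) := by nlinarith
    exact Nat.lt_of_mul_lt_mul_left h3
  have hKK : K ≤ K * v := Nat.le_mul_of_pos_right _ hv
  have hvK : v ≤ K * v := Nat.le_mul_of_pos_left _ hK1
  have hqn : q ≤ n := (Nat.le_mul_of_pos_left _ hk0).trans hq4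
  have hvL : v ≤ v * L := Nat.le_mul_of_pos_right _ hL
  refine ⟨q, K, 20 * v * (L + 1) + l * v, hq, hK1, ?_, by omega, by omega, ?_, hq4, ?_, ?_, ?_, ?_⟩
  · have : 0 < 20 * v * (L + 1) := by positivity
    omega
  · have e : (2 * K + 2) * (2 * (8 * v) + 2) = 32 * (K * v) + 4 * K + 32 * v + 4 := by ring
    omega
  · calc q ^ (8 * v) ≤ (2 ^ (L + 1)) ^ (8 * v) := Nat.pow_le_pow_left (hqn.trans hnL.le) _
      _ = 2 ^ (8 * v * (L + 1)) := by rw [← pow_mul, mul_comm]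
      _ ≤ _ := Nat.pow_le_pow_right (by norm_num) hK2
  · rw [pow_add]
    refine Nat.mul_le_mul_right _ ?_
    have e1 : K * q ^ 4 + 1 ≤ (2 ^ (L + 1)) ^ 5 := by
      calc K * q ^ 4 + 1 ≤ n * n ^ 4 + 1 := by gcongr; omega
        _ = n ^ 5 + 1 := by ring
        _ ≤ _ := Nat.pow_lt_pow_left hnL (by norm_num)
    calc (K * q ^ 4 + 1) ^ (4 * v) ≤ ((2 ^ (L + 1)) ^ 5) ^ (4 * v) := Nat.pow_le_pow_left e1 _
      _ = _ := by
        rw [← pow_mul, ← pow_mul]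
        congr 1
        ring
  · have e1 : 20 * v * (L + 1) + l * v ≤ 44 * (v * L) := by
      have e2 : l * v ≤ 4 * L * v := Nat.mul_le_mul_right _ hlL
      have e3 : 20 * v * (L + 1) = 20 * (v * L) + 20 * v := by ring
      have e4 : 4 * L * v = 4 * (v * L) := by ring
      omega
    have e2 : v ^ 2 ≤ k := by omega
    have e3 : 270336 ≤ k ^ 3 := le_trans (by norm_num) (Nat.pow_le_pow_left hk 3)
    have e4 : L ^ 2 ≤ L ^ 8 := Nat.pow_le_pow_right hL (by norm_num)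
    have e5 : (2 * k) ^ 4 * ((20 * v * (L + 1) + l * v) * (4 * (2 ^ t * (t + 1))) *
        (6 * v * 2 ^ l) * 2 ^ (l + 1)) ≤ (2 * k) ^ 4 * q ^ 4 := by
      calc _ ≤ (2 * k) ^ 4 * ((44 * (v * L)) * (4 * (2 ^ t * (8 * L))) *
            (6 * v * 2 ^ l) * 2 ^ (l + 1)) := by gcongr
        _ = 2 ^ t * 2 ^ (2 * l) * (k ^ 4 * (270336 * v ^ 2 * L ^ 2)) := by ring
        _ ≤ 2 ^ t * 2 ^ (2 * l) * (k ^ 4 * (k ^ 3 * k * L ^ 8)) := by gcongr
        _ = 2 ^ t * 4 ^ l * (k * L) ^ 8 := by rw [h4l]; ring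
        _ ≤ n ^ 4 := h2
        _ ≤ (2 * k * q) ^ 4 := Nat.pow_le_pow_left hq3.le _
        _ = _ := mul_pow _ _ _
    exact Nat.le_of_mul_le_mul_left e5 (by positivity)
  · have e1 : 64 * L ≤ (k * L) ^ 8 := by
      calc 64 * L ≤ k * L := Nat.mul_le_mul_right _ (by omega)
        _ ≤ _ := Nat.le_self_pow (by norm_num) _
    calc 8 * (2 ^ t * (t + 1)) ≤ 8 * (2 ^ t * (8 * L)) := by gcongr
      _ = 2 ^ t * 1 * (64 * L) := by ring
      _ ≤ 2 ^ t * 4 ^ l * (k * L) ^ 8 := by gcongr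
      _ ≤ _ := h2

end Pool.Agent.Lib.MP_7836d5_lc.Neg
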