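import Pool.Agent.Lib.MP_7836d5_lc.Neg.Bridge
import Pool.Agent.Lib.MP_7836d5_lc.Neg.Main
import Pool.Agent.Lib.MP_7836d5_lc.Neg.Mach
import Pool.Agent.Lib.MP_7836d5_lc.Neg.Code
import Pool.Agent.Lib.MP_7836d5_lc.Neg.Params

set_option autoImplicit false

/-! The lower bound for the halting function. -/

namespace Pool.Agent.Lib.MP_7836d5_lc.Neg

open Finset Pool.Agent.Lib.MP_7836d5_lc.LP

lemma final_num {a s y e : ℝ} (ha : 0 < a) (hs : 0 ≤ s) (hy : 0 < y) (he : e ≤ 2 / y)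
    (h : 4 * a / 2 ≤ a * (1 + 4 * a * s * e)) : y ≤ s * (8 * a) := by
  have h1 : 1 ≤ 4 * a * s * e := by
    by_contra h1
    nlinarith [not_le.1 h1]
  have h2 : 1 ≤ 4 * a * s * (2 / y) := h1.trans (mul_le_mul_of_nonneg_left he (by positivity))
  rw [← mul_div_assoc, le_div_iff₀ hy] at h2
  linarith

theorem neg_bound (n k l v s t : ℕ) (q0 qh bl : Fin n) (hq : q0 ≠ qh)
    (h1 : 2000 * v ^ 2 * Nat.log 2 n ≤ l * k)
    (h2 : 2 ^ t * 4 ^ l * (k * Nat.log 2 n) ^ 8 ≤ n ^ 4)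
    (h : NegCirc (Halts q0 qh bl k) s t) : 2 ^ (l * v) ≤ s * n ^ 4 := by
  have hn : 2 ≤ n := by
    have e1 := q0.2
    have e2 := qh.2
    have e3 : q0.1 ≠ qh.1 := fun e => hq (Fin.ext e)
    omega
  rcases Nat.eq_zero_or_pos (l * v) with h0 | h0
  · obtain ⟨_, _, o, -⟩ := h
    rw [h0, pow_zero]
    exact Nat.mul_pos o.pos (by positivity)
  have hl : 1 ≤ l := Nat.pos_of_mul_pos_right h0
  have hv : 1 ≤ v := Nat.pos_of_mul_pos_left h0
  obtain ⟨q, K, m, hq', hK, hm, p1, -, p3, p4, p5, p6, p7, p8⟩ := params hn hl hv h1 h2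
  have : Fact q.Prime := ⟨hq'⟩
  obtain ⟨T, hT, hH⟩ := mach_main (F := ZMod q) (8 * v) K n k
    (fun i r j => ((4 * i + r.1 : ℕ) : ZMod q) ^ j)
    (by rw [ZMod.card]; exact (Nat.mul_le_mul_right _ p3).trans p4)
    (le_trans (Nat.mul_le_mul_right _ (by omega)) p3) q0 qh bl hq
  obtain ⟨val, Ng, out, hc, ht, hf⟩ := circ_of_neg h T hT
  have hq0 : (0 : ℝ) < q := by exact_mod_cast hq'.pos
  have hQ : (0 : ℝ) < (q : ℝ) ^ 4 := by positivity
  have hl2 : (2 : ℝ) ≤ 2 ^ l := le_self_pow₀ (by norm_num) (by omega)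
  have p7' : (m : ℝ) * (4 * (2 ^ t * (t + 1))) * (6 * v * 2 ^ l) * 2 ^ (l + 1) ≤ (q : ℝ) ^ 4 := by
    exact_mod_cast p7
  have hrκ : (q : ℝ) ^ 4 / 2 ^ l * (1 / (q : ℝ) ^ 4) = 1 / 2 ^ l := by field_simp
  have key := neg_main (cS (K := K) (D := 8 * v) fun i r => ((4 * i + r.1 : ℕ) : ZMod q))
    (1 / (q : ℝ) ^ 4) ((q : ℝ) ^ 4 / 2 ^ l) (6 * v * 2 ^ l / (q : ℝ) ^ 4) v m
    (4 * (2 ^ t * (t + 1))) K s t hv hm (by positivity) (by positivity)
    (by rw [hrκ]; exact one_div_le_one_div_of_le (by norm_num) hl2)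
    (le_of_eq (by field_simp))
    (by
      rw [div_le_one hQ]
      have e : 6 * v * 2 ^ l ≤ q ^ 4 := by
        refine le_trans ?_ p7
        calc 6 * v * 2 ^ l = 1 * 1 * (6 * v * 2 ^ l) * 1 := by ring
          _ ≤ _ := by
            gcongr
            · exact Nat.succ_le_of_lt (by positivity)
            · exact Nat.one_le_two_pow
      exact_mod_cast e)
    (fun U hU => by
      have := cS_spread (K := K) (D := 8 * v) (fun i r => ((4 * i + r.1 : ℕ) : ZMod q))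
        (Code_inj K q p1) U (by omega)
      rwa [ZMod.card] at this)
    (cS_card _)
    (by
      have e1 : (Fintype.card (Fin (8 * v) → ZMod q) : ℝ) ≤ (2 ^ l) ^ K := by
        rw [Fintype.card_fun, ZMod.card, Fintype.card_fin, ← pow_mul]
        exact_mod_cast p5
      have e2 : (m : ℝ) * ((4 * (2 ^ t * (t + 1)) : ℕ) : ℝ) * (6 * v * 2 ^ l / (q : ℝ) ^ 4) ≤
          1 / 2 ^ (l + 1) := by
        rw [← mul_div_assoc, div_le_div_iff₀ hQ (by positivity), one_mul]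
        push_cast
        exact p7'
      calc _ ≤ ((2 : ℝ) ^ l) ^ K * (1 / 2 ^ (l + 1)) ^ K := by gcongr
        _ = (1 / 2) ^ K := by
          rw [← mul_pow]
          congr 1
          rw [pow_succ]
          field_simp
        _ ≤ 1 / 2 := pow_le_of_le_one (by norm_num) (by norm_num) (by omega))
    val Ng hc ht out (fun x => by
      rw [hf, hH]
      simp only [cS_subset, cPt, decide_eq_true_eq])
  have e1 : ((q : ℝ) ^ 4 / 2 ^ l * (1 / (q : ℝ) ^ 4)) ^ (v + 1) ≤ 1 / 2 ^ (l * v) := by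
    rw [hrκ, pow_mul, ← one_div_pow ((2 : ℝ) ^ l) v]
    exact pow_le_pow_of_le_one (by positivity)
      ((one_div_le_one_div_of_le (by norm_num) hl2).trans (by norm_num)) (by omega)
  have e2 : ((Fintype.card (Fin K × ZMod q × ZMod q × ZMod q × ZMod q) : ℝ) + 1) ^ (4 * v) /
      2 ^ m ≤ 1 / 2 ^ (l * v) := by
    rw [div_le_div_iff₀ (by positivity) (by positivity), one_mul]
    have e : Fintype.card (Fin K × ZMod q × ZMod q × ZMod q × ZMod q) = K * q ^ 4 := by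
      simp only [Fintype.card_prod, Fintype.card_fin, ZMod.card]
      ring
    rw [e]
    exact_mod_cast p6
  push_cast at key
  have e3 := final_num (a := 2 ^ t * (t + 1)) (s := s) (y := 2 ^ (l * v)) (by positivity)
    (by positivity) (by positivity) ((add_le_add e1 e2).trans (le_of_eq (by ring))) key
  have e4 : 2 ^ (l * v) ≤ s * (8 * (2 ^ t * (t + 1))) := by exact_mod_cast e3
  exact e4.trans (Nat.mul_le_mul_left _ p8)

end Pool.Agent.Lib.MP_7836d5_lc.Neg
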