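import Mathlib

set_option autoImplicit false

/-! Averaging operators on functions of subsets: sprinkling random elements. -/

namespace Pool.Agent.Lib.MP_7836d5_lc.Neg

open Finset

open Classical in
/-- indicator of a proposition -/
noncomputable def ind (P : Prop) : ℝ := if P then 1 else 0

lemma ind_pos {P : Prop} (h : P) : ind P = 1 := by simp [ind, h]
lemma ind_neg {P : Prop} (h : ¬ P) : ind P = 0 := by simp [ind, h]
lemma ind_nonneg (P : Prop) : 0 ≤ ind P := by
  by_cases h : P <;> simp [ind, h]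
lemma ind_le_one (P : Prop) : ind P ≤ 1 := by
  by_cases h : P <;> simp [ind, h]
lemma ind_mono {P Q : Prop} (h : P → Q) : ind P ≤ ind Q := by
  by_cases hp : P
  · rw [ind_pos hp, ind_pos (h hp)]
  · rw [ind_neg hp]; exact ind_nonneg Q
lemma ind_not (P : Prop) : ind (¬ P) = 1 - ind P := by
  by_cases h : P <;> simp [ind, h]
lemma ind_and (P Q : Prop) : ind (P ∧ Q) = ind P * ind Q := by
  by_cases h : P <;> by_cases h' : Q <;> simp [ind, h, h']
lemma ind_or_le (P Q : Prop) : ind (P ∨ Q) ≤ ind P + ind Q := by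
  by_cases h : P <;> by_cases h' : Q <;> simp [ind, h, h']
lemma ind_congr {P Q : Prop} (h : P ↔ Q) : ind P = ind Q := by rw [propext h]

variable {Ω : Type} [DecidableEq Ω]

/-- averaging operators commuting with adding a fixed set -/
structure Mk (T : Module.End ℝ (Finset Ω → ℝ)) : Prop where
  pos : ∀ f x, (∀ A, 0 ≤ f (x ∪ A)) → 0 ≤ T f x
  one : ∀ x, T (fun _ => 1) x = 1
  shift : ∀ f x y, T f (x ∪ y) = T (fun A => f (x ∪ A)) y

namespace Mk
variable {T T' : Module.End ℝ (Finset Ω → ℝ)}

lemma mono (h : Mk T) {f g : Finset Ω → ℝ} {x : Finset Ω} (hfg : ∀ A, f (x ∪ A) ≤ g (x ∪ A)) :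
    T f x ≤ T g x := by
  have h1 := h.pos (g - f) x fun A => by simpa using hfg A
  rw [map_sub] at h1
  simpa using h1

lemma const (h : Mk T) (c : ℝ) (x : Finset Ω) : T (fun _ => c) x = c := by
  have h1 : (fun _ : Finset Ω => c) = c • (fun _ : Finset Ω => (1 : ℝ)) := by
    funext A; simp
  rw [h1, map_smul]
  simp [h.one]

lemma add (f g : Finset Ω → ℝ) (x : Finset Ω) :
    T (fun A => f A + g A) x = T f x + T g x := by
  have h1 : (fun A => f A + g A) = f + g := rfl
  rw [h1, map_add]; rfl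

lemma sub (f g : Finset Ω → ℝ) (x : Finset Ω) :
    T (fun A => f A - g A) x = T f x - T g x := by
  have h1 : (fun A => f A - g A) = f - g := rfl
  rw [h1, map_sub]; rfl

lemma smul (c : ℝ) (f : Finset Ω → ℝ) (x : Finset Ω) :
    T (fun A => c * f A) x = c * T f x := by
  have h1 : (fun A => c * f A) = c • f := rfl
  rw [h1, map_smul]; rfl

lemma sum {ι : Type} (s : Finset ι) (f : ι → Finset Ω → ℝ) (x : Finset Ω) :
    T (fun A => ∑ i ∈ s, f i A) x = ∑ i ∈ s, T (f i) x := by
  have h1 : (fun A => ∑ i ∈ s, f i A) = ∑ i ∈ s, f i := by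
    funext A; simp
  rw [h1, map_sum]; simp

lemma shift0 (h : Mk T) (f : Finset Ω → ℝ) (x : Finset Ω) :
    T f x = T (fun A => f (x ∪ A)) ∅ := by
  rw [← h.shift, union_empty]

lemma id : Mk (1 : Module.End ℝ (Finset Ω → ℝ)) :=
  ⟨fun f x h => by simpa using h ∅, fun _ => rfl, fun _ _ _ => rfl⟩

lemma mul (h : Mk T) (h' : Mk T') : Mk (T * T') := by
  refine ⟨fun f x hf => ?_, fun x => ?_, fun f x y => ?_⟩
  · refine h.pos _ x fun A => h'.pos f _ fun B => ?_
    rw [union_assoc]; exact hf _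
  · have h1 : T' (fun _ => 1) = fun _ => 1 := funext h'.one
    simp only [Module.End.mul_apply, h1, h.one]
  · simp only [Module.End.mul_apply]
    rw [h.shift, show (fun A => T' f (x ∪ A)) = T' (fun A => f (x ∪ A)) from
      funext fun A => h'.shift f x A]

lemma pow (h : Mk T) (n : ℕ) : Mk (T ^ n) := by
  induction n with
  | zero => simpa using id
  | succ n ih => rw [pow_succ']; exact h.mul ih

/-- an event closed under taking subsets survives `m` rounds with probability at most the `m`-th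
power -/
lemma pow_anti (h : Mk T) (H : Finset Ω → Prop) (hH : ∀ x y, x ⊆ y → H y → H x) (x : Finset Ω)
    (m : ℕ) : (T ^ m) (fun A => ind (H A)) x ≤ (T (fun A => ind (H A)) x) ^ m := by
  induction m with
  | zero => simpa using ind_le_one (H x)
  | succ m ih =>
    have h0 : 0 ≤ T (fun A => ind (H A)) x := h.pos _ _ fun A => ind_nonneg _
    have key : ∀ A, (T ^ m) (fun A => ind (H A)) (x ∪ A) ≤
        (T ^ m) (fun A => ind (H A)) x * ind (H (x ∪ A)) := by
      intro A
      by_cases hA : H (x ∪ A)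
      · rw [ind_pos hA, mul_one, (h.pow m).shift0, (h.pow m).shift0 _ x]
        refine (h.pow m).mono fun B => ind_mono (hH _ _ ?_)
        simp only [empty_union]
        exact union_subset_union subset_union_left Subset.rfl
      · rw [ind_neg hA, mul_zero, ← (h.pow m).const 0 (x ∪ A)]
        refine (h.pow m).mono fun B => ?_
        rw [ind_neg fun hB => hA (hH _ _ subset_union_left hB)]
    calc (T ^ (m + 1)) (fun A => ind (H A)) x
        = T ((T ^ m) fun A => ind (H A)) x := by rw [pow_succ']; rfl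
      _ ≤ T (fun A => (T ^ m) (fun A => ind (H A)) x * ind (H A)) x := h.mono key
      _ = (T ^ m) (fun A => ind (H A)) x * T (fun A => ind (H A)) x := smul _ _ _
      _ ≤ (T (fun A => ind (H A)) x) ^ m * T (fun A => ind (H A)) x :=
          mul_le_mul_of_nonneg_right ih h0
      _ = _ := by rw [pow_succ]

end Mk

variable [Fintype Ω]

/-- weight of a set under the product measure -/
noncomputable def wt (p : ℝ) (A : Finset Ω) : ℝ := (∏ _u ∈ A, p) * ∏ _u ∈ Aᶜ, (1 - p)

/-- add a `p`-random set -/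
noncomputable def Pop (p : ℝ) : Module.End ℝ (Finset Ω → ℝ) where
  toFun f x := ∑ A, wt p A * f (x ∪ A)
  map_add' f g := by
    funext x; simp [mul_add, sum_add_distrib]
  map_smul' c f := by
    funext x; simp [mul_sum, mul_left_comm]

lemma Pop_apply (p : ℝ) (f : Finset Ω → ℝ) (x : Finset Ω) :
    Pop p f x = ∑ A, wt p A * f (x ∪ A) := rfl

lemma wt_prod (p : ℝ) (a b : Ω → ℝ) :
    ∑ A : Finset Ω, wt p A * ∏ u, (if u ∈ A then a u else b u) =
      ∏ u, (p * a u + (1 - p) * b u) := by
  rw [Fintype.prod_add]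
  refine sum_congr rfl fun A _ => ?_
  rw [wt, prod_mul_distrib, prod_mul_distrib, ← prod_mul_prod_compl A]
  have h1 : ∏ u ∈ A, (if u ∈ A then a u else b u) = ∏ u ∈ A, a u :=
    prod_congr rfl fun u hu => if_pos hu
  have h2 : ∏ u ∈ Aᶜ, (if u ∈ A then a u else b u) = ∏ u ∈ Aᶜ, b u :=
    prod_congr rfl fun u hu => if_neg (mem_compl.1 hu)
  rw [h1, h2]; ring

lemma Mk_Pop {p : ℝ} (h0 : 0 ≤ p) (h1 : p ≤ 1) : Mk (Pop p : Module.End ℝ (Finset Ω → ℝ)) := by
  refine ⟨fun f x hf => ?_, fun x => ?_, fun f x y => ?_⟩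
  · refine sum_nonneg fun A _ => mul_nonneg ?_ (hf A)
    exact mul_nonneg (prod_nonneg fun _ _ => h0) (prod_nonneg fun _ _ => by linarith)
  · have := wt_prod (Ω := Ω) p (fun _ => 1) (fun _ => 1)
    simpa [Pop_apply] using this
  · simp only [Pop_apply, union_assoc]

/-- the product formula -/
lemma Pop_pow_card (p b : ℝ) (U x : Finset Ω) :
    Pop p (fun y => b ^ (U \ y).card) x = (p + (1 - p) * b) ^ (U \ x).card := by
  have h1 : ∀ A : Finset Ω, b ^ (U \ (x ∪ A)).card =
      ∏ u, (if u ∈ A then (1 : ℝ) else if u ∈ U \ x then b else 1) := by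
    intro A
    rw [← prod_const, ← prod_filter_mul_prod_filter_not univ (fun u => u ∈ U \ (x ∪ A))]
    have e1 : univ.filter (fun u => u ∈ U \ (x ∪ A)) = U \ (x ∪ A) := by ext u; simp
    rw [e1, prod_eq_one (s := univ.filter fun u => ¬ u ∈ U \ (x ∪ A)), mul_one]
    · refine prod_congr rfl fun u hu => ?_
      simp only [mem_sdiff, mem_union, not_or] at hu
      simp [hu.1, hu.2.1, hu.2.2]
    · intro u hu
      simp only [mem_filter, mem_univ, true_and, mem_sdiff, mem_union, not_and, not_not] at hu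
      by_cases hA : u ∈ A
      · simp [hA]
      · by_cases hU : u ∈ U
        · have := (hu hU).resolve_right hA
          simp [hA, this]
        · simp [hA, hU]
  simp only [Pop_apply, h1]
  rw [wt_prod, ← prod_const, ← prod_filter_mul_prod_filter_not univ (fun u => u ∈ U \ x)]
  have e1 : univ.filter (fun u => u ∈ U \ x) = U \ x := by ext u; simp
  rw [e1, prod_eq_one (s := univ.filter fun u => ¬ u ∈ U \ x), mul_one]
  · refine prod_congr rfl fun u hu => ?_
    rw [if_pos hu, mul_one]
  · intro u hu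
    rw [if_neg (mem_filter.1 hu).2]; ring

lemma ind_sub (U y : Finset Ω) : ind (U ⊆ y) = (0 : ℝ) ^ (U \ y).card := by
  by_cases h : U ⊆ y
  · rw [ind_pos h, sdiff_eq_empty_iff_subset.2 h]; simp
  · rw [ind_neg h, zero_pow]
    rwa [Ne, card_eq_zero, sdiff_eq_empty_iff_subset]

lemma Pop_sub (p : ℝ) (U x : Finset Ω) : Pop p (fun y => ind (U ⊆ y)) x = p ^ (U \ x).card := by
  simp only [ind_sub]
  rw [Pop_pow_card]; simp

lemma Pop_pow_sub {p : ℝ} (h0 : 0 ≤ p) (h1 : p ≤ 1) (U : Finset Ω) (n : ℕ) (x : Finset Ω) :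
    (Pop p ^ n) (fun y => ind (U ⊆ y)) x ≤ (n * p) ^ (U \ x).card := by
  induction n generalizing x with
  | zero => simp [ind_sub]
  | succ n ih =>
    calc (Pop p ^ (n + 1)) (fun y => ind (U ⊆ y)) x
        = Pop p ((Pop p ^ n) fun y => ind (U ⊆ y)) x := by rw [pow_succ']; rfl
      _ ≤ Pop p (fun y => (n * p) ^ (U \ y).card) x := (Mk_Pop h0 h1).mono fun A => ih _
      _ = (p + (1 - p) * (n * p)) ^ (U \ x).card := Pop_pow_card _ _ _ _
      _ ≤ _ := by
        have h2 : 0 ≤ (n : ℝ) * p := by positivity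
        refine pow_le_pow_left₀ (by nlinarith) ?_ _
        push_cast
        nlinarith

end Pool.Agent.Lib.MP_7836d5_lc.Neg
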