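import Pool.Agent.Lib.MP_7836d5_lc.Neg.Op

set_option autoImplicit false

/-! Weighted second moment bound for hitting a family of sets. -/

namespace Pool.Agent.Lib.MP_7836d5_lc.Neg

open Finset

variable {Ω : Type} [DecidableEq Ω]

lemma one_add_pow_le {x : ℝ} (hx : 0 ≤ x) (n : ℕ) (h : 3 * (n * x) ≤ 1) : (1 + x) ^ n ≤ 3 / 2 := by
  have key : ∀ j : ℕ, (1 + x) ^ j * (1 - j * x) ≤ 1 := by
    intro j
    induction j with
    | zero => simp
    | succ j ih =>
      have h1 : 0 ≤ (1 + x) ^ j := by positivity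
      have h2 : (1 + x) * (1 - (j + 1) * x) ≤ 1 - j * x := by
        have : 0 ≤ (j : ℝ) * x * x := by positivity
        nlinarith
      push_cast
      calc (1 + x) ^ (j + 1) * (1 - (j + 1) * x)
          = (1 + x) ^ j * ((1 + x) * (1 - (j + 1) * x)) := by ring
        _ ≤ (1 + x) ^ j * (1 - j * x) := mul_le_mul_of_nonneg_left h2 h1
        _ ≤ 1 := ih
  have h1 : 0 ≤ (1 + x) ^ n := by positivity
  have h2 := key n
  nlinarith

/-- weight of the members of `G` containing `R` -/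
noncomputable def lam (r : ℝ) (G : Finset (Finset Ω)) (R : Finset Ω) : ℝ :=
  ∑ U ∈ G.filter (fun U => R ⊆ U), r⁻¹ ^ (U \ R).card

lemma lam_nonneg {r : ℝ} (hr : 0 < r) (G : Finset (Finset Ω)) (R : Finset Ω) : 0 ≤ lam r G R :=
  sum_nonneg fun _ _ => by positivity

lemma overlap {r p β : ℝ} (hr : 0 < r) (hp : 0 < p) {d : ℕ} (hd : 3 * (d : ℝ) ≤ r * p)
    (G : Finset (Finset Ω)) (T : Finset Ω) (hT : ∀ U ∈ G, T ⊆ U) (hβ0 : 0 ≤ β)
    (hβ : ∀ R, T ⊂ R → lam r G R ≤ β) (W : Finset Ω) (hW : W.card ≤ d) (hWT : Disjoint W T) :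
    ∑ U ∈ G, r⁻¹ ^ (U \ T).card * p⁻¹ ^ (W ∩ U).card ≤ lam r G T + β / 2 := by
  have h1 : ∀ U ∈ G, r⁻¹ ^ (U \ T).card * p⁻¹ ^ (W ∩ U).card ≤
      ∑ R ∈ W.powerset, if T ∪ R ⊆ U then (r * p)⁻¹ ^ R.card * r⁻¹ ^ (U \ (T ∪ R)).card else 0 := by
    intro U hU
    have hsub : T ∪ W ∩ U ⊆ U := union_subset (hT U hU) inter_subset_right
    refine le_trans (le_of_eq ?_) (single_le_sum (f := fun R =>
      if T ∪ R ⊆ U then (r * p)⁻¹ ^ R.card * r⁻¹ ^ (U \ (T ∪ R)).card else 0)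
      (fun R _ => by split_ifs <;> positivity) (mem_powerset.2 (inter_subset_left (s₂ := U))))
    rw [if_pos hsub]
    have hc : (U \ T).card = (W ∩ U).card + (U \ (T ∪ W ∩ U)).card := by
      rw [← card_union_of_disjoint]
      · congr 1
        ext u
        simp only [mem_sdiff, mem_union, mem_inter]
        have : u ∈ W → u ∉ T := fun h => disjoint_left.1 hWT h
        tauto
      · rw [disjoint_left]
        intro u h1 h2
        simp only [mem_sdiff, mem_union, mem_inter] at h1 h2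
        tauto
    rw [hc, pow_add, mul_inv, mul_pow]
    ring
  refine (sum_le_sum h1).trans ?_
  rw [sum_comm]
  have h2 : ∀ R ∈ W.powerset, (∑ U ∈ G, if T ∪ R ⊆ U then
      (r * p)⁻¹ ^ R.card * r⁻¹ ^ (U \ (T ∪ R)).card else 0) ≤
      (r * p)⁻¹ ^ R.card * β + if R = ∅ then lam r G T - β else 0 := by
    intro R hR
    rw [← sum_filter, ← mul_sum]
    change (r * p)⁻¹ ^ R.card * lam r G (T ∪ R) ≤ _
    by_cases h0 : R = ∅
    · subst h0; simp
    · rw [if_neg h0, add_zero]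
      refine mul_le_mul_of_nonneg_left (hβ _ ?_) (by positivity)
      obtain ⟨u, hu⟩ := nonempty_iff_ne_empty.2 h0
      refine ⟨subset_union_left, fun h => ?_⟩
      exact disjoint_left.1 hWT (mem_powerset.1 hR hu) (h (mem_union_right _ hu))
  refine (sum_le_sum h2).trans ?_
  rw [sum_add_distrib, ← sum_mul, sum_ite_eq', if_pos (empty_mem_powerset W)]
  have h3 : ∑ R ∈ W.powerset, (r * p)⁻¹ ^ R.card = (1 + (r * p)⁻¹) ^ W.card := by
    have := prod_one_add (s := W) (f := fun _ => (r * p)⁻¹)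
    simpa using this.symm
  have hrp : 0 < r * p := mul_pos hr hp
  have h4 : (1 + (r * p)⁻¹) ^ W.card ≤ 3 / 2 := by
    refine one_add_pow_le (by positivity) _ ?_
    have h5 : (W.card : ℝ) ≤ d := by exact_mod_cast hW
    rw [← mul_assoc, ← div_eq_mul_inv, div_le_one hrp]
    linarith
  rw [h3]
  nlinarith

variable [Fintype Ω]

/-- second moment bound -/
lemma second {r p β : ℝ} (hr : 0 < r) (hp : 0 < p) (hp1 : p ≤ 1) {d : ℕ}
    (hd : 3 * (d : ℝ) ≤ r * p) (G : Finset (Finset Ω)) (T : Finset Ω) (hT : ∀ U ∈ G, T ⊆ U)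
    (hG : ∀ U ∈ G, (U \ T).card ≤ d) (hβ0 : 0 < β) (hβ : ∀ R, T ⊂ R → lam r G R ≤ β) :
    lam r G T / (lam r G T + β / 2) ≤ Pop p (fun y => ind (∃ U ∈ G, U ⊆ y)) T := by
  have hM := Mk_Pop (Ω := Ω) hp.le hp1
  have hσe : lam r G T = ∑ U ∈ G, r⁻¹ ^ (U \ T).card := by
    rw [lam, filter_true_of_mem hT]
  set σ := lam r G T with hσ
  have hσ0 : 0 ≤ σ := lam_nonneg hr _ _
  set c : Finset Ω → ℝ := fun U => (r * p)⁻¹ ^ (U \ T).card with hc
  set X : Finset Ω → ℝ := fun y => ∑ U ∈ G, c U * ind (U ⊆ y) with hX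
  have e1 : Pop p X T = σ := by
    rw [hX, Mk.sum, hσe]
    refine sum_congr rfl fun U _ => ?_
    rw [Mk.smul, Pop_sub, hc, ← mul_pow]
    congr 1
    field_simp
  have e2 : Pop p (fun y => X y * X y) T ≤ σ * (σ + β / 2) := by
    have h1 : (fun y => X y * X y) =
        fun y => ∑ U ∈ G, ∑ V ∈ G, c U * c V * ind (U ∪ V ⊆ y) := by
      funext y
      rw [hX, sum_mul_sum]
      refine sum_congr rfl fun U _ => sum_congr rfl fun V _ => ?_
      rw [ind_congr union_subset_iff, ind_and]; ring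
    rw [h1, Mk.sum, hσe, sum_mul]
    refine sum_le_sum fun U hU => ?_
    rw [Mk.sum, ← hσe]
    refine le_trans (le_of_eq ?_) (mul_le_mul_of_nonneg_left
      (overlap hr hp hd G T hT hβ0.le hβ (U \ T) (hG U hU) sdiff_disjoint) (by positivity))
    rw [mul_sum]
    refine sum_congr rfl fun V _ => ?_
    rw [Mk.smul, Pop_sub, hc]
    have h2 : ((U ∪ V) \ T).card + (U \ T ∩ V).card = (U \ T).card + (V \ T).card := by
      rw [← card_union_add_card_inter (U \ T) (V \ T), union_sdiff_distrib]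
      congr 2
      ext u
      simp only [mem_sdiff, mem_inter]
      tauto
    have h3 : p ^ ((U ∪ V) \ T).card =
        p ^ (U \ T).card * p ^ (V \ T).card * p⁻¹ ^ (U \ T ∩ V).card := by
      rw [← pow_add, ← h2, pow_add, mul_assoc, ← mul_pow, mul_inv_cancel₀ hp.ne', one_pow, mul_one]
    rw [h3]
    simp only [mul_inv, mul_pow, inv_pow]
    field_simp
  have hpos : 0 < σ + β / 2 := by positivity
  set l := (σ + β / 2)⁻¹ with hl
  have e3 : Pop p (fun y => 2 * l * X y - l ^ 2 * (X y * X y)) T ≤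
      Pop p (fun y => ind (∃ U ∈ G, U ⊆ y)) T := by
    refine hM.mono fun A => ?_
    by_cases h : ∃ U ∈ G, U ⊆ T ∪ A
    · rw [ind_pos h]
      nlinarith [sq_nonneg (1 - l * X (T ∪ A))]
    · have h0 : X (T ∪ A) = 0 := sum_eq_zero fun U hU => by
        rw [ind_neg fun h' => h ⟨U, hU, h'⟩, mul_zero]
      rw [ind_neg h, h0]; simp
  rw [Mk.sub, Mk.smul, Mk.smul, e1] at e3
  refine le_trans ?_ e3
  have h5 : l ^ 2 * Pop p (fun y => X y * X y) T ≤ l ^ 2 * (σ * (σ + β / 2)) :=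
    mul_le_mul_of_nonneg_left e2 (sq_nonneg l)
  have h6 : l ^ 2 * (σ * (σ + β / 2)) = l * σ := by
    rw [hl]; field_simp
  rw [div_eq_mul_inv, ← hl]
  linarith

end Pool.Agent.Lib.MP_7836d5_lc.Neg
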