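import Pool.Agent.Lib.MP_7836d5_lc.Neg.Closure

set_option autoImplicit false

/-! One approximation step: close, then trim. -/

namespace Pool.Agent.Lib.MP_7836d5_lc.Neg

open Finset

variable {Ω I : Type} [DecidableEq Ω] [Fintype I]

lemma union_bound (S : I → Finset Ω) {κ r : ℝ} {d e : ℕ} (hκ : 0 ≤ κ) (hr : 0 < r)
    (hrκ : r * κ ≤ 1)
    (hS : ∀ U : Finset Ω, U.card ≤ d →
      ((univ.filter fun i => U ⊆ S i).card : ℝ) ≤ κ ^ U.card * Fintype.card I)
    (F : Finset (Finset Ω)) (hF : ∀ U ∈ F, e ≤ U.card ∧ U.card ≤ d) :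
    ∑ i, ind (∃ U ∈ F, U ⊆ S i) ≤ (r * κ) ^ e * lam r F ∅ * Fintype.card I := by
  have h1 : ∀ i, ind (∃ U ∈ F, U ⊆ S i) ≤ ∑ U ∈ F, ind (U ⊆ S i) := by
    intro i
    by_cases h : ∃ U ∈ F, U ⊆ S i
    · obtain ⟨U, hU, hs⟩ := h
      refine (ind_le_one _).trans ?_
      rw [← ind_pos hs]
      exact single_le_sum (f := fun U => ind (U ⊆ S i)) (fun _ _ => ind_nonneg _) hU
    · rw [ind_neg h]
      exact sum_nonneg fun _ _ => ind_nonneg _
  refine (sum_le_sum fun i _ => h1 i).trans ?_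
  rw [sum_comm, lam, filter_true_of_mem fun U _ => empty_subset U, mul_sum, sum_mul]
  refine sum_le_sum fun U hU => ?_
  have h2 : ∑ i, ind (U ⊆ S i) = ((univ.filter fun i => U ⊆ S i).card : ℝ) := by
    rw [card_filter]
    push_cast
    refine sum_congr rfl fun i _ => ?_
    by_cases h : U ⊆ S i
    · rw [ind_pos h, if_pos h]
    · rw [ind_neg h, if_neg h]
  rw [h2]
  refine (hS U (hF U hU).2).trans (mul_le_mul_of_nonneg_right ?_ (by positivity))
  rw [sdiff_empty]
  have h3 : κ ^ U.card = (r * κ) ^ U.card * r⁻¹ ^ U.card := by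
    rw [← mul_pow]
    congr 1
    field_simp
  rw [h3]
  exact mul_le_mul_of_nonneg_right
    (pow_le_pow_of_le_one (by positivity) hrκ (hF U hU).1) (by positivity)

variable [Fintype Ω]

/-- the approximation step -/
lemma step (S : I → Finset Ω) {κ r p : ℝ} {w m : ℕ} (hw : 1 ≤ w) (hm : 1 ≤ m) (hκ : 0 ≤ κ)
    (hr : 0 < r) (hrκ : r * κ ≤ 1 / 2) (hp : 6 * (w : ℝ) ≤ r * p) (hp1 : p ≤ 1)
    (hS : ∀ U : Finset Ω, U.card ≤ 2 * w →
      ((univ.filter fun i => U ⊆ S i).card : ℝ) ≤ κ ^ U.card * Fintype.card I)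
    (h : Finset Ω → ℝ) (hmon : Monotone h) (hdet : Det (2 * w) h) :
    ∃ a : Finset Ω → ℝ, Monotone a ∧ Det w a ∧
      ∑ i, ind (a (S i) < h (S i)) ≤ (r * κ) ^ (w + 1) * Fintype.card I ∧
      (Pop p ^ m) (fun y => ind (h y < a y)) ∅ ≤ (Fintype.card Ω + 1) ^ (4 * w) / 2 ^ m ∧
      ∑ i, ind (0 < a (S i)) ≤ (Pop p ^ m) (fun y => ind (0 < a y)) ∅ * Fintype.card I := by
  have hw' : (1 : ℝ) ≤ w := by exact_mod_cast hw
  have hp0 : 0 < p := by
    by_contra h0
    nlinarith [mul_nonneg hr.le (neg_nonneg.2 (not_lt.1 h0))]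
  have hM := Mk_Pop (Ω := Ω) hp0.le hp1
  have hQ := hM.pow m
  have hI : (0 : ℝ) ≤ Fintype.card I := by positivity
  have hd : 3 * ((2 * w : ℕ) : ℝ) ≤ r * p := by push_cast; linarith
  classical
  set Sm := univ.filter fun T : Finset Ω => T.card ≤ 2 * w with hSm
  obtain ⟨g, g1, g2, g3, g4, g5⟩ := closure hQ (2 * w) (ε := (1 / 2) ^ m) (by positivity)
    (Sm.image h) ((Fintype.card Ω + 1) ^ (4 * w)) h hmon hdet (fun x => by
      obtain ⟨U, h1, h2, h3⟩ := hdet x
      exact mem_image.2 ⟨U, by simp [hSm, h2], le_antisymm (hmon h1) h3⟩) (by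
      refine (card_filter_le _ _).trans ?_
      rw [card_product, show 4 * w = 2 * w + 2 * w by ring, pow_add]
      exact Nat.mul_le_mul (card_small _) (card_image_le.trans (card_small _)))
  have hK := kraft hr hp0 hp1 hd g1 g4
  have hne : ∀ x : Finset Ω, (x.powerset.filter fun U => U.card ≤ w).Nonempty :=
    fun x => ⟨∅, by simp⟩
  set a : Finset Ω → ℝ := fun x => (x.powerset.filter fun U => U.card ≤ w).sup' (hne x) g with ha
  have a1 : ∀ x U : Finset Ω, U ⊆ x → U.card ≤ w → g U ≤ a x := fun x U h1 h2 =>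
    le_sup' g (by simp [h1, h2])
  have a2 : ∀ x, ∃ U ⊆ x, U.card ≤ w ∧ a x = g U := by
    intro x
    obtain ⟨U, h1, h2⟩ := exists_mem_eq_sup' (hne x) g
    rw [mem_filter, mem_powerset] at h1
    exact ⟨U, h1.1, h1.2, h2⟩
  have a3 : Monotone a := by
    intro x y hxy
    obtain ⟨U, h1, h2, h3⟩ := a2 x
    rw [h3]
    exact a1 y U (h1.trans hxy) h2
  refine ⟨a, a3, fun x => ?_, ?_, ?_, ?_⟩
  · obtain ⟨U, h1, h2, h3⟩ := a2 x
    exact ⟨U, h1, h2, h3.le.trans (a1 U U Subset.rfl h2)⟩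
  · set F := (strict (2 * w) g).filter fun U => w + 1 ≤ U.card with hF
    have b1 := union_bound S (e := w + 1) hκ hr (by linarith) hS F fun U hU =>
      ⟨(mem_filter.1 hU).2, (mem_strict.1 (mem_filter.1 hU).1).1⟩
    have b2 : lam r F ∅ ≤ 1 := by
      refine (lam_mono hr (fun U hU => mem_filter.2 ⟨(mem_filter.1 hU).1, ?_⟩) ∅).trans (hK ∅)
      have := (mem_filter.1 hU).2
      exact empty_ssubset.2 (card_pos.1 (by omega))
    refine le_trans (sum_le_sum fun i _ => ind_mono fun hlt => ?_) (b1.trans ?_)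
    · obtain ⟨U, h1, h2, h3⟩ := hdet (S i)
      obtain ⟨W, h4, h5, h6⟩ := exists_strict g U h2
      refine ⟨W, mem_filter.2 ⟨h5, ?_⟩, h4.trans h1⟩
      by_contra h7
      have := a1 (S i) W (h4.trans h1) (by omega)
      linarith [g3 U]
    · refine mul_le_mul_of_nonneg_right ?_ hI
      exact mul_le_of_le_one_right (by positivity) b2
  · refine le_trans (hQ.mono fun A => ind_mono fun hlt => ?_) (g5.trans (le_of_eq ?_))
    · obtain ⟨U, h1, -, h3⟩ := a2 (∅ ∪ A)
      exact hlt.trans_le (h3.le.trans (g1 h1))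
    · push_cast
      rw [one_div, inv_pow, div_eq_mul_inv]
  · by_cases h0 : 0 < a ∅
    · have b1 : (Pop p ^ m) (fun y => ind (0 < a y)) ∅ = 1 := by
        rw [show (fun y => ind (0 < a y)) = fun _ => 1 from
          funext fun y => ind_pos (h0.trans_le (a3 (empty_subset y))), hQ.one]
      rw [b1, one_mul]
      refine (sum_le_sum fun i _ => ind_le_one _).trans ?_
      simp
    set F := (strict (2 * w) g).filter fun U => 1 ≤ U.card ∧ U.card ≤ w ∧ 0 < g U with hF
    have b1 := union_bound S (e := 1) hκ hr (by linarith) hS F fun U hU =>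
      ⟨(mem_filter.1 hU).2.1, (mem_strict.1 (mem_filter.1 hU).1).1⟩
    have b2 : lam r F ∅ ≤ 1 := by
      refine (lam_mono hr (fun U hU => mem_filter.2 ⟨(mem_filter.1 hU).1, ?_⟩) ∅).trans (hK ∅)
      exact empty_ssubset.2 (card_pos.1 (mem_filter.1 hU).2.1)
    have b3 := second hr hp0 hp1 hd F ∅ (fun U _ => empty_subset U)
      (fun U hU => (card_le_card sdiff_subset).trans (mem_strict.1 (mem_filter.1 hU).1).1)
      (β := 2) two_pos (fun R _ => by
        have c1 := lam_mono hr (filter_subset (fun U => 1 ≤ U.card ∧ U.card ≤ w ∧ 0 < g U)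
          (strict (2 * w) g)) R
        have c2 := lam_le hr (strict (2 * w) g) R
        have c3 := hK R
        linarith)
    have b0 := lam_nonneg hr F ∅
    have b4 : Pop p (fun y => ind (∃ U ∈ F, U ⊆ y)) ∅ ≤ Pop p (fun y => ind (0 < a y)) ∅ := by
      refine hM.mono fun A => ind_mono ?_
      rintro ⟨U, hU, hs⟩
      obtain ⟨-, -, c1, c2⟩ := mem_filter.1 hU
      exact c2.trans_le (a1 _ U hs c1)
    have b5 := hM.pow_anti (fun y => ¬ 0 < a y) (fun x y hxy h h' => h (h'.trans_le (a3 hxy))) ∅ m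
    have b6 : 0 ≤ Pop p (fun y => ind (¬ 0 < a y)) ∅ := hM.pos _ _ fun A => ind_nonneg _
    have b7 : Pop p (fun y => ind (¬ 0 < a y)) ∅ ≤ 1 := by
      rw [← hM.one ∅]
      exact hM.mono fun A => ind_le_one _
    have b8 := b5.trans (pow_le_of_le_one b6 b7 (by omega))
    simp only [ind_not] at b8
    rw [Mk.sub, Mk.sub, hM.one, hQ.one] at b8
    have b9 : (r * κ) ^ 1 * lam r F ∅ ≤ lam r F ∅ / (lam r F ∅ + 2 / 2) := by
      rw [le_div_iff₀ (by positivity), pow_one]
      have c1 : r * κ * lam r F ∅ ≤ 1 / 2 * lam r F ∅ := mul_le_mul_of_nonneg_right hrκ b0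
      have c2 : 0 ≤ r * κ * lam r F ∅ := by positivity
      nlinarith
    refine le_trans (sum_le_sum fun i _ => ind_mono fun hlt => ?_) (b1.trans ?_)
    · obtain ⟨U, h1, h2, h3⟩ := a2 (S i)
      obtain ⟨W, h4, h5, h6⟩ := exists_strict g U (d := 2 * w) (by omega)
      have h7 : W.card ≤ w := (card_le_card h4).trans h2
      have h8 : 0 < g W := by linarith
      refine ⟨W, mem_filter.2 ⟨h5, ?_, h7, h8⟩, h4.trans h1⟩
      by_contra h9
      have h10 : W = ∅ := card_eq_zero.1 (by omega)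
      exact h0 (h8.trans_le (a1 ∅ W (by simp [h10]) h7))
    · exact mul_le_mul_of_nonneg_right (by linarith) hI

end Pool.Agent.Lib.MP_7836d5_lc.Neg
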